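import Pool.Agent.helper88.T7.SpecR7

set_option autoImplicit false

/-!
# T7 (MP_16912e_nt), block R7: the final statements for functions of the discriminant
-/

namespace Pool.Agent.T7

open Finset NumberField Pool.Agent.helper3.FT Pool.Agent.helper47.RA Pool.Agent.T5 Pool.Agent.T6
open scoped nonZeroDivisors

open Classical in
/-- the sum over `D` of a function which counts something in every field -/
theorem Fin7_sum (S : ∀ (K : Type) [Field K] [NumberField K], Set (ClassGroup (𝓞 K))) (g : ℤ → ℕ)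
    (hg : ∀ (K : Type) [Field K] [NumberField K], Module.finrank ℚ K = 2 → g (NumberField.discr K) = (S K).ncard) (N : ℝ) :
    ∑ D ∈ (Icc (-⌊N⌋) (-1)).filter IsFund, (g D : ℝ) = TT7 (fun _ E => ((S E.K).ncard : ℝ)) N := by
  unfold TT7
  refine Finset.sum_congr rfl fun D hD => ?_
  rw [Finset.mem_filter, Finset.mem_Icc] at hD
  have hD0 : D < 0 := by omega
  have hne : Nonempty (Fld D) := SFA.2.2 D hD.2 hD0
  have e1 := hg hne.some.K hne.some.fin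
  rw [hne.some.dK] at e1
  rw [SF, dif_pos hne, e1]

open Classical in
/-- the asymptotic with the condition on `c²` -/
def ASY7_stmt : Prop := ∀ ε : ℝ, 0 < ε → ∃ A₀ : ℝ, 1 ≤ A₀ ∧ ∀ A : ℝ, A₀ ≤ A → ∃ κ N₀ : ℝ, 0 < κ ∧ ∀ g : ℤ → ℝ → ℕ,
  (∀ (K : Type) [Field K] [NumberField K], Module.finrank ℚ K = 2 → ∀ Y : ℝ, g (NumberField.discr K) Y = (SP7 K A Y).ncard) →
  ∀ N Y : ℝ, N₀ ≤ N → N ^ (2 / 5 : ℝ) ≤ Y → Y ≤ κ * √N →
    |∑ D ∈ (Icc (-⌊N⌋) (-1)).filter IsFund, (g D Y : ℝ) - 36 / Real.pi ^ 3 * (Y * √N)| ≤ ε * (Y * √N)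

open Classical in
/-- the upper bound without the condition -/
def UPP7_stmt : Prop := ∃ C N₀ : ℝ, 1 ≤ C ∧ ∀ h : ℤ → ℝ → ℕ,
  (∀ (K : Type) [Field K] [NumberField K], Module.finrank ℚ K = 2 → ∀ Y : ℝ, h (NumberField.discr K) Y = (CLS K Y).ncard) →
  ∀ N Y : ℝ, N₀ ≤ N → N ^ (2 / 5 : ℝ) ≤ Y → Y ≤ √N →
    ∑ D ∈ (Icc (-⌊N⌋) (-1)).filter IsFund, (h D Y : ℝ) ≤ C * (Y * √N)

open Classical in
/-- the lower bound without the condition -/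
def LOW7_stmt : Prop := ∀ ε : ℝ, 0 < ε → ∃ κ N₀ : ℝ, 0 < κ ∧ ∀ h : ℤ → ℝ → ℕ,
  (∀ (K : Type) [Field K] [NumberField K], Module.finrank ℚ K = 2 → ∀ Y : ℝ, h (NumberField.discr K) Y = (CLS K Y).ncard) →
  ∀ N Y : ℝ, N₀ ≤ N → N ^ (2 / 5 : ℝ) ≤ Y → Y ≤ κ * √N →
    (36 / Real.pi ^ 3 - ε) * (Y * √N) ≤ ∑ D ∈ (Icc (-⌊N⌋) (-1)).filter IsFund, (h D Y : ℝ)

theorem ASY7 (h1 : ZFN_stmt) : ASY7_stmt := by
  intro ε hε
  obtain ⟨A₀, hA₀, h2⟩ := h1 ε hε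
  refine ⟨A₀, hA₀, fun A hA => ?_⟩
  obtain ⟨κ, N₀, hκ, h3⟩ := h2 A hA
  refine ⟨κ, N₀, hκ, fun g hg N Y hN hY hY' => ?_⟩
  have e := Fin7_sum (fun K _ _ => SP7 K A Y) (fun D => g D Y) (fun K _ _ h => hg K h Y) N
  rw [e]
  exact h3 N Y hN hY hY'

theorem UPP7 (h1 : ZTT_stmt) : UPP7_stmt := by
  obtain ⟨C, N₀, hC, h2⟩ := h1
  refine ⟨C, N₀, hC, fun h hh N Y hN hY hY' => ?_⟩
  have e := Fin7_sum (fun K _ _ => CLS K Y) (fun D => h D Y) (fun K _ _ h => hh K h Y) N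
  rw [e]
  exact h2 N Y hN hY hY'

theorem LOW7 (h1 : ZFN_stmt) : LOW7_stmt := by
  classical
  intro ε hε
  obtain ⟨A₀, hA₀, h2⟩ := h1 ε hε
  obtain ⟨κ, N₀, hκ, h3⟩ := h2 A₀ le_rfl
  refine ⟨κ, N₀, hκ, fun h hh N Y hN hY hY' => ?_⟩
  have e := Fin7_sum (fun K _ _ => CLS K Y) (fun D => h D Y) (fun K _ _ h => hh K h Y) N
  have e2 := (abs_le.mp (h3 N Y hN hY hY')).1
  have e3 : TT7 (fS A₀ Y) N ≤ TT7 (fun _ E => ((CLS E.K Y).ncard : ℝ)) N := by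
    unfold TT7
    refine Finset.sum_le_sum fun D _ => ?_
    unfold SF
    by_cases hne : Nonempty (Fld D)
    · rw [dif_pos hne, dif_pos hne]
      have : (SP7 hne.some.K A₀ Y).ncard ≤ (CLS hne.some.K Y).ncard :=
        Set.ncard_le_ncard (fun c hc => hc.1) (Set.toFinite _)
      show ((SP7 hne.some.K A₀ Y).ncard : ℝ) ≤ ((CLS hne.some.K Y).ncard : ℝ)
      exact_mod_cast this
    · rw [dif_neg hne, dif_neg hne]
  rw [← e] at e3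
  linarith

end Pool.Agent.T7
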