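import Pool.Agent.helper88.T7.SpecR7

set_option autoImplicit false

/-! Row t7:ZCP (MP_16912e_nt): classes with `A μ(c) < μ(c²)` and ideals. -/

namespace Pool.Agent.T7

open Finset NumberField Pool.Agent.helper3.FT Pool.Agent.helper47.RA Pool.Agent.T5 Pool.Agent.T6
open scoped nonZeroDivisors

theorem ZCP (h1 : MU7_stmt) : ZCP_stmt := by
  intro K _ _ Q _ hD A Y hY
  have hCLS := fun Y c => ZL_CLS h1 Q hD Y c
  obtain ⟨f, hinj, hf⟩ := ZL_map h1 Q hD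
  have hfin : (PA7 Q A Y).Finite := (SFA.1 K Y).subset fun a ha => ha.1
  obtain ⟨-, -, h3, -, -⟩ := h1 K Q hD
  have hup : (CU7 K A Y).ncard ≤ (PA7 Q A Y).ncard + (CU7 K A (Y / 2)).ncard := by
    have hsub : CU7 K A Y ⊆ {c | c ∈ CU7 K A Y ∧ Y / 2 < (mu c : ℝ)} ∪ CU7 K A (Y / 2) := by
      rintro c ⟨hc, hcA⟩
      rcases lt_or_ge (Y / 2) (mu c : ℝ) with h | h
      · exact Or.inl ⟨⟨hc, hcA⟩, h⟩
      · right
        obtain ⟨b1, b2, -⟩ := (hCLS _ _).mp hc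
        exact ⟨(hCLS _ _).mpr ⟨b1, b2, h⟩, hcA⟩
    have h4 : ({c | c ∈ CU7 K A Y ∧ Y / 2 < (mu c : ℝ)} : Set (ClassGroup (𝓞 K))).ncard ≤ (PA7 Q A Y).ncard := by
      refine Set.ncard_le_ncard_of_injOn f ?_ (hinj.injOn) hfin
      rintro c ⟨⟨hc, hcA⟩, hcY⟩
      obtain ⟨c5, c1, cY⟩ := (hCLS _ _).mp hc
      obtain ⟨f1, f2, f3, f4, f5, f6, f7, -⟩ := hf c
      have hm : (0 : ℝ) < (mu c : ℝ) := by exact_mod_cast (h3 c).1
      refine ⟨ZL_IA f c _ f1 f2 f3 f5 f6 c5 c1 hcY cY, ?_⟩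
      intro β hβ hβ0
      rw [f3]
      refine lt_of_lt_of_le ?_ (f7 β hβ hβ0)
      have h5 : (mu c : ℝ) ^ 2 * (A * (mu c : ℝ)) < (mu c : ℝ) ^ 2 * (mu (c ^ 2) : ℝ) :=
        mul_lt_mul_of_pos_left hcA (by positivity)
      linarith [h5, show A * (mu c : ℝ) ^ 3 = (mu c : ℝ) ^ 2 * (A * (mu c : ℝ)) by ring]
    have h5 := Set.ncard_le_ncard hsub (Set.toFinite _)
    have h6 := Set.ncard_union_le {c | c ∈ CU7 K A Y ∧ Y / 2 < (mu c : ℝ)} (CU7 K A (Y / 2))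
    omega
  refine ⟨hup, fun hYD => le_antisymm hup ?_⟩
  -- the classes of the ideals of `PA7`
  have hkey : ∀ a ∈ PA7 Q A Y, SC1_cl a ∈ CU7 K A Y ∧ Y / 2 < (mu (SC1_cl a) : ℝ) := by
    rintro a ⟨⟨a1, a2, a3, a4, a5, a6⟩, a7⟩
    obtain ⟨c, hc⟩ : ∃ c, c = SC1_cl a := ⟨_, rfl⟩
    have c5 : c ^ 5 = 1 := by
      rw [hc, ← SC1_cl_pow a a1, SC1_cl_one _ (pow_ne_zero 5 a1)]
      exact a3
    have c1 : c ≠ 1 := by
      rw [hc, Ne, SC1_cl_one _ a1]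
      exact a4
    have cY : c ∈ CLS K Y := by
      refine ⟨c5, c1, ⟨a, mem_nonZeroDivisors_of_ne_zero a1⟩, ?_, a6⟩
      rw [hc]
      exact (SC1_cl_eq a a1).symm
    obtain ⟨f1, f2, f3, f4, -, -, -, α, hα, hα0, hαe⟩ := hf c
    have hmuY := ((hCLS _ _).mp cY).2.2
    have hab : f c = a := by
      refine SC1_inj Q Y hYD (f c) a f1 a1 f2 a2 ?_ a6 ?_
      · rw [f3]
        exact hmuY
      · rw [f4, hc]
    have hN : (Ideal.absNorm a : ℝ) = (mu c : ℝ) := by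
      rw [← hab, f3]
    rw [hab] at hα
    have h5 := a7 α hα hα0
    rw [hαe, hN] at h5
    have hm : (0 : ℝ) < (mu c : ℝ) := by exact_mod_cast (h3 c).1
    rw [← hc]
    refine ⟨⟨cY, ?_⟩, ?_⟩
    · have h6 : (mu c : ℝ) ^ 2 * (A * (mu c : ℝ)) < (mu c : ℝ) ^ 2 * (mu (c ^ 2) : ℝ) := by
        calc (mu c : ℝ) ^ 2 * (A * (mu c : ℝ)) = A * (mu c : ℝ) ^ 3 := by ring
          _ < _ := h5
      exact lt_of_mul_lt_mul_left h6 (by positivity)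
    · rw [← hN]
      exact a5
  have hinj2 : Set.InjOn SC1_cl (PA7 Q A Y) := by
    rintro a ⟨⟨a1, a2, -, -, -, a6⟩, -⟩ b ⟨⟨b1, b2, -, -, -, b6⟩, -⟩ h
    exact SC1_inj Q Y hYD a b a1 b1 a2 b2 a6 b6 h
  have h4 : (SC1_cl '' (PA7 Q A Y)).ncard = (PA7 Q A Y).ncard := hinj2.ncard_image
  have hdis : Disjoint (SC1_cl '' (PA7 Q A Y)) (CU7 K A (Y / 2)) := by
    rw [Set.disjoint_left]
    rintro c ⟨a, ha, rfl⟩ hc
    have h5 := (hkey a ha).2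
    have h6 := ((hCLS _ _).mp hc.1).2.2
    linarith
  have hsub2 : SC1_cl '' (PA7 Q A Y) ∪ CU7 K A (Y / 2) ⊆ CU7 K A Y := by
    rintro c (⟨a, ha, rfl⟩ | hc)
    · exact (hkey a ha).1
    · obtain ⟨b1, b2, b3⟩ := (hCLS _ _).mp hc.1
      exact ⟨(hCLS _ _).mpr ⟨b1, b2, by linarith⟩, hc.2⟩
  have h7 := Set.ncard_le_ncard hsub2 (Set.toFinite _)
  rw [Set.ncard_union_eq hdis (Set.toFinite _) (Set.toFinite _), h4] at h7
  exact h7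

end Pool.Agent.T7
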