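import Pool.Agent.helper88.T7.SpecR7

set_option autoImplicit false

/-! Row t7:ZDY (MP_16912e_nt): dyadic decomposition of the sum over `D`. -/

namespace Pool.Agent.T7

open Finset NumberField Pool.Agent.helper3.FT Pool.Agent.helper47.RA Pool.Agent.T5 Pool.Agent.T6
open scoped nonZeroDivisors

theorem ZDY_nonneg (φ : ∀ D : ℤ, Fld D → ℝ) (hφ : ∀ D E, 0 ≤ φ D E) (D : ℤ) : 0 ≤ SF φ D := by
  unfold SF
  split_ifs with h
  · exact hφ _ _
  · exact le_rfl

theorem ZDY_step (φ : ∀ D : ℤ, Fld D → ℝ) (N : ℝ) (hN : 0 < N) : TT7 φ N = TD7 φ N + TT7 φ (N / 2) := by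
  classical
  unfold TT7 TD7
  rw [← Finset.sum_filter_add_sum_filter_not ((Icc (-⌊N⌋) (-1)).filter IsFund) (fun D : ℤ => N / 2 < -(D : ℝ))]
  have h1 : ((Icc (-⌊N⌋) (-1)).filter IsFund).filter (fun D : ℤ => N / 2 < -(D : ℝ)) = DN N := by
    ext D
    rw [DN, Finset.mem_filter, Finset.mem_filter, Finset.mem_filter]
    tauto
  have h2 : ((Icc (-⌊N⌋) (-1)).filter IsFund).filter (fun D : ℤ => ¬ N / 2 < -(D : ℝ)) =
      (Icc (-⌊N / 2⌋) (-1)).filter IsFund := by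
    ext D
    rw [Finset.mem_filter, Finset.mem_filter, Finset.mem_filter, Finset.mem_Icc, Finset.mem_Icc]
    have h3 : -⌊N / 2⌋ ≤ D ↔ -(D : ℝ) ≤ N / 2 := by
      rw [neg_le, Int.le_floor]
      push_cast
      rfl
    have h4 : -⌊N⌋ ≤ D ↔ -(D : ℝ) ≤ N := by
      rw [neg_le, Int.le_floor]
      push_cast
      rfl
    rw [h3, h4, not_lt]
    constructor
    · rintro ⟨⟨⟨a1, a2⟩, a3⟩, a4⟩
      exact ⟨⟨a4, a2⟩, a3⟩
    · rintro ⟨⟨a1, a2⟩, a3⟩
      exact ⟨⟨⟨by linarith, a2⟩, a3⟩, a1⟩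
  rw [h1, h2]

theorem ZDY : ZDY_stmt := by
  classical
  intro φ hφ
  refine ⟨fun N N' h => ?_, fun N hN I => ?_⟩
  · unfold TT7
    refine Finset.sum_le_sum_of_subset_of_nonneg ?_ (fun D _ _ => ZDY_nonneg φ hφ D)
    intro D hD
    rw [Finset.mem_filter, Finset.mem_Icc] at hD ⊢
    have := Int.floor_le_floor h
    exact ⟨⟨by omega, hD.1.2⟩, hD.2⟩
  · induction I with
    | zero =>
      rw [Finset.range_zero, Finset.sum_empty, pow_zero, div_one, zero_add]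
    | succ I ih =>
      rw [Finset.sum_range_succ, ih, ZDY_step φ (N / 2 ^ I) (by positivity)]
      have e : N / 2 ^ (I + 1) = N / 2 ^ I / 2 := by
        rw [pow_succ, div_div]
      rw [e]
      ring

end Pool.Agent.T7
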