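import Pool.Agent.helper88.T7.SpecR7

set_option autoImplicit false

/-! Row t7:ZFB (MP_16912e_nt): one field, a set of classes of order 5 and the dyadic boxes. -/

namespace Pool.Agent.T7

open Finset NumberField Pool.Agent.helper3.FT Pool.Agent.helper47.RA Pool.Agent.T5 Pool.Agent.T6
open scoped nonZeroDivisors

theorem ZFB_union {α ι : Type} [Finite α] (T : Finset ι) (f : ι → Set α) :
    (⋃ x ∈ T, f x).ncard ≤ ∑ x ∈ T, (f x).ncard := by
  classical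
  induction T using Finset.induction_on with
  | empty => simp
  | insert a T ha ih =>
    rw [Finset.set_biUnion_insert, Finset.sum_insert ha]
    exact (Set.ncard_union_le _ _).trans (Nat.add_le_add_left ih _)

theorem ZFB (h1 : MU7_stmt) : ZFB_stmt := by
  classical
  intro K _ _ Q hD M I hM S P hS hP
  have hCLS := fun Y c => ZL_CLS h1 Q hD Y c
  obtain ⟨-, -, h3, -, -⟩ := h1 K Q hD
  obtain ⟨q1, q2, q3, q4⟩ := ZL_sq (G := ClassGroup (𝓞 K))
  obtain ⟨T, hT⟩ : ∃ T : Finset (ℕ × ℕ), T = (range I ×ˢ range I).filter (fun x : ℕ × ℕ => P x.1 x.2) := ⟨_, rfl⟩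
  have hsub : S ⊆ (⋃ x ∈ T, XX7 K M x.1 x.2) ∪ (CLS K (M / 2 ^ I) ∪ {c | c ∈ S ∧ c ^ 2 ∈ CLS K (M / 2 ^ I)}) := by
    intro c hc
    obtain ⟨hc5, hc1⟩ := hS hc
    have hmu1 := (h3 c).1
    have hmuM : ((mu c : ℕ) : ℝ) ≤ M := (h3 c).2.2.trans hM
    have hmu1' := (h3 (c ^ 2)).1
    have hmuM' : ((mu (c ^ 2) : ℕ) : ℝ) ≤ M := (h3 (c ^ 2)).2.2.trans hM
    have hM0 : 0 < M := by
      have : (0 : ℝ) < (mu c : ℝ) := by exact_mod_cast hmu1
      linarith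
    obtain ⟨i, hi1, hi2⟩ := ZL_dyad M (mu c) hmu1 hmuM
    obtain ⟨j, hj1, hj2⟩ := ZL_dyad M (mu (c ^ 2)) hmu1' hmuM'
    have hX : c ∈ XX7 K M i j := ⟨hc5, hc1, hi2, hi1, hj2, hj1⟩
    by_cases hi : i < I
    · by_cases hj : j < I
      · left
        refine Set.mem_iUnion₂.mpr ⟨(i, j), ?_, hX⟩
        rw [hT, Finset.mem_filter, Finset.mem_product, Finset.mem_range, Finset.mem_range]
        exact ⟨⟨hi, hj⟩, hP c hc i j hX⟩
      · right; right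
        refine ⟨hc, (hCLS _ _).mpr ⟨q2 c hc5, q3 c hc5 hc1, hj1.trans ?_⟩⟩
        exact div_le_div_of_nonneg_left hM0.le (by positivity) (pow_le_pow_right₀ (by norm_num) (by omega))
    · right; left
      refine (hCLS _ _).mpr ⟨hc5, hc1, hi1.trans ?_⟩
      exact div_le_div_of_nonneg_left hM0.le (by positivity) (pow_le_pow_right₀ (by norm_num) (by omega))
  have hB : ({c | c ∈ S ∧ c ^ 2 ∈ CLS K (M / 2 ^ I)} : Set (ClassGroup (𝓞 K))).ncard ≤ (CLS K (M / 2 ^ I)).ncard := by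
    refine Set.ncard_le_ncard_of_injOn (fun c => c ^ 2) ?_ ?_ (Set.toFinite _)
    · intro c hc
      exact hc.2
    · intro c hc c' hc' h
      exact q4 (hS hc.1).1 (hS hc'.1).1 h
  have h4 := Set.ncard_le_ncard hsub (Set.toFinite _)
  have h5 := Set.ncard_union_le (⋃ x ∈ T, XX7 K M x.1 x.2) (CLS K (M / 2 ^ I) ∪ {c | c ∈ S ∧ c ^ 2 ∈ CLS K (M / 2 ^ I)})
  have h6 := Set.ncard_union_le (CLS K (M / 2 ^ I)) {c | c ∈ S ∧ c ^ 2 ∈ CLS K (M / 2 ^ I)}
  have h7 := ZFB_union T (fun x : ℕ × ℕ => XX7 K M x.1 x.2)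
  have h8 : S.ncard ≤ (∑ x ∈ T, (XX7 K M x.1 x.2).ncard) + 2 * (CLS K (M / 2 ^ I)).ncard := by omega
  rw [← hT]
  exact_mod_cast h8

end Pool.Agent.T7
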