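import Pool.Agent.helper88.T7.SpecR7
import Pool.Agent.helper85.T7.Defs

set_option autoImplicit false

/-! Row t7:ZPS (MP_16912e_nt): the slices for `PA7`. -/

namespace Pool.Agent.T7

open Finset NumberField Pool.Agent.helper3.FT Pool.Agent.helper47.RA Pool.Agent.T5 Pool.Agent.T6
open scoped nonZeroDivisors

theorem ZPS_finEX {K : Type} [Field K] [NumberField K] (Q : QF K) (Y B : ℝ) : (EX Q Y B).Finite :=
  (SFA.1 K Y).subset fun _ ha => ha.1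

theorem ZPS_up {K : Type} [Field K] [NumberField K] (Q : QF K) (A K₀ Y : ℝ) (hK : 0 < K₀) (hA : 2 * K₀ ≤ A) :
    (PA7 Q A Y).ncard + (EX Q Y (K₀ * Y)).ncard ≤ (IA K Y).ncard := by
  have hdis : Disjoint (PA7 Q A Y) (EX Q Y (K₀ * Y)) := by
    rw [Set.disjoint_left]
    rintro a ⟨⟨a1, -, -, -, a5, -⟩, a7⟩ ⟨-, α, hα, hα0, hαe⟩
    have h1 := a7 α hα hα0
    have hN : (0 : ℝ) < (Ideal.absNorm a : ℝ) := by
      have : 0 < Ideal.absNorm a := Nat.pos_of_ne_zero fun h => a1 (Ideal.absNorm_eq_zero_iff.mp h)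
      exact_mod_cast this
    have h2 : K₀ * Y ≤ A * (Ideal.absNorm a : ℝ) := by nlinarith
    have h3 : (Ideal.absNorm a : ℝ) ^ 2 * (K₀ * Y) ≤ (Ideal.absNorm a : ℝ) ^ 2 * (A * (Ideal.absNorm a : ℝ)) :=
      mul_le_mul_of_nonneg_left h2 (by positivity)
    have h4 : A * (Ideal.absNorm a : ℝ) ^ 3 = (Ideal.absNorm a : ℝ) ^ 2 * (A * (Ideal.absNorm a : ℝ)) := by ring
    linarith
  have hfP : (PA7 Q A Y).Finite := (SFA.1 K Y).subset fun _ ha => ha.1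
  rw [← Set.ncard_union_eq hdis hfP (ZPS_finEX Q Y _)]
  refine Set.ncard_le_ncard ?_ (SFA.1 K Y)
  rintro a (ha | ha)
  · exact ha.1
  · exact ha.1

theorem ZPS_low {K : Type} [Field K] [NumberField K] (Q : QF K) (A B Y : ℝ) (hA : 0 ≤ A) (hB : A * Y ≤ B) :
    (IA K Y).ncard ≤ (PA7 Q A Y).ncard + (EX Q Y B).ncard := by
  have hfP : (PA7 Q A Y).Finite := (SFA.1 K Y).subset fun _ ha => ha.1
  have hsub : IA K Y ⊆ PA7 Q A Y ∪ EX Q Y B := by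
    intro a ha
    by_cases h : a ∈ EX Q Y B
    · exact Or.inr h
    · refine Or.inl ⟨ha, fun α hα hα0 => ?_⟩
      have h1 : (Ideal.absNorm a : ℝ) ^ 2 * B < Q.v₁ α ^ 2 := by
        by_contra h2
        exact h ⟨ha, α, hα, hα0, not_lt.mp h2⟩
      have hY : (Ideal.absNorm a : ℝ) ≤ Y := ha.2.2.2.2.2
      have h2 : A * (Ideal.absNorm a : ℝ) ≤ B := (mul_le_mul_of_nonneg_left hY hA).trans hB
      have h3 : (Ideal.absNorm a : ℝ) ^ 2 * (A * (Ideal.absNorm a : ℝ)) ≤ (Ideal.absNorm a : ℝ) ^ 2 * B :=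
        mul_le_mul_of_nonneg_left h2 (by positivity)
      have h4 : A * (Ideal.absNorm a : ℝ) ^ 3 = (Ideal.absNorm a : ℝ) ^ 2 * (A * (Ideal.absNorm a : ℝ)) := by ring
      linarith
  exact (Set.ncard_le_ncard hsub (hfP.union (ZPS_finEX Q Y _))).trans (Set.ncard_union_le _ _)

theorem ZPS_sup (N A K₀ Y : ℝ) (hK : 0 < K₀) (hA : 2 * K₀ ≤ A) :
    TD7 (fP A Y) N ≤ ∑ D ∈ DN N, ((cA D Y : ℝ) - (cE D Y (K₀ * Y) : ℝ)) := by
  unfold TD7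
  refine Finset.sum_le_sum fun D hD => ?_
  obtain ⟨E, e1, e2, e3, -⟩ := ZL_fld N D hD
  rw [e1, e2, e3]
  have h := ZPS_up E.Q A K₀ Y hK hA
  have h2 : ((PA7 E.Q A Y).ncard : ℝ) + ((EX E.Q Y (K₀ * Y)).ncard : ℝ) ≤ ((IA E.K Y).ncard : ℝ) := by exact_mod_cast h
  show ((PA7 E.Q A Y).ncard : ℝ) ≤ _
  linarith

theorem ZPS_sup' (N A Y : ℝ) : TD7 (fP A Y) N ≤ ∑ D ∈ DN N, (cA D Y : ℝ) := by
  unfold TD7
  refine Finset.sum_le_sum fun D hD => ?_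
  obtain ⟨E, e1, e2, e3, -⟩ := ZL_fld N D hD
  rw [e1, e2]
  show ((PA7 E.Q A Y).ncard : ℝ) ≤ _
  have : (PA7 E.Q A Y).ncard ≤ (IA E.K Y).ncard := Set.ncard_le_ncard (fun _ ha => ha.1) (SFA.1 E.K Y)
  exact_mod_cast this

theorem ZPS_slow (N A B Y : ℝ) (hA : 0 ≤ A) (hB : A * Y ≤ B) :
    ∑ D ∈ DN N, ((cA D Y : ℝ) - (cE D Y B : ℝ)) ≤ TD7 (fP A Y) N := by
  unfold TD7
  refine Finset.sum_le_sum fun D hD => ?_
  obtain ⟨E, e1, e2, e3, -⟩ := ZL_fld N D hD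
  rw [e1, e2, e3]
  have h := ZPS_low E.Q A B Y hA hB
  have h2 : ((IA E.K Y).ncard : ℝ) ≤ ((PA7 E.Q A Y).ncard : ℝ) + ((EX E.Q Y B).ncard : ℝ) := by exact_mod_cast h
  show _ ≤ ((PA7 E.Q A Y).ncard : ℝ)
  linarith

theorem ZPS (h1 : SLU7_stmt) (h2 : SLL7_stmt) (h3 : ∀ δ : ℝ, 0 < δ → δ ≤ 1 / 10 → SLU_stmt δ)
    (h4 : ∀ δ : ℝ, 0 < δ → δ ≤ 1 / 10 → SLL_stmt δ) (h5 : ∀ δ : ℝ, 0 < δ → δ ≤ 1 / 10 → EXC_stmt δ) : ZPS_stmt := by
  intro ε hε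
  obtain ⟨δ₁, hδ₁, hU⟩ := h1
  obtain ⟨δ₂, hδ₂, hL⟩ := h2
  obtain ⟨δ, hδ, hδa, hδb, hδc⟩ : ∃ δ : ℝ, 0 < δ ∧ δ ≤ δ₁ ∧ δ ≤ δ₂ ∧ δ ≤ 1 / 10 :=
    ⟨min δ₁ (min δ₂ (1 / 10)), lt_min hδ₁ (lt_min hδ₂ (by norm_num)), min_le_left _ _,
      (min_le_right _ _).trans (min_le_left _ _), (min_le_right _ _).trans (min_le_right _ _)⟩
  obtain ⟨K₀, κ₁, N₁, hK₀, hκ₁, hU'⟩ := hU ε hε
  obtain ⟨l₀, κ₂, N₂, hl₀, hκ₂, hL'⟩ := hL ε hε
  obtain ⟨N₃, hU''⟩ := h3 δ hδ hδc ε hε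
  obtain ⟨N₄, hL''⟩ := h4 δ hδ hδc (ε / 2) (by linarith)
  obtain ⟨c, N₅, hc, hE⟩ := h5 δ hδ hδc
  refine ⟨2 * K₀, by linarith, fun A hA => ?_⟩
  have hA0 : 0 < A := by linarith
  obtain ⟨N₆, hN₆⟩ := Filter.eventually_atTop.mp
    ((tendsto_rpow_atTop (show 0 < 199 / 200 * δ by positivity)).eventually_ge_atTop A)
  obtain ⟨N₇, hN₇⟩ := Filter.eventually_atTop.mp
    ((tendsto_rpow_neg_atTop hc).eventually (eventually_le_nhds (show (0 : ℝ) < ε / 2 by linarith)))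
  refine ⟨min (min κ₁ κ₂) (l₀ / A), max 1 (max (max N₁ N₂) (max (max N₃ N₄) (max N₅ (max N₆ N₇)))), ?_, ?_⟩
  · exact lt_min (lt_min hκ₁ hκ₂) (div_pos hl₀ hA0)
  intro N Y hN hY hY'
  simp only [max_le_iff] at hN
  obtain ⟨hN1, ⟨m1, m2⟩, ⟨m3, m4⟩, m5, m6, m7⟩ := hN
  have hN0 : 0 < N := by linarith
  have hsN : (0 : ℝ) < √N := Real.sqrt_pos.mpr hN0
  have hY0 : 0 < Y := lt_of_lt_of_le (Real.rpow_pos_of_pos hN0 _) hY
  rw [abs_le]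
  rcases le_total (N ^ (1 / 2 - δ)) Y with h | h
  · have a1 : Y ≤ κ₁ * √N := hY'.trans (mul_le_mul_of_nonneg_right ((min_le_left _ _).trans (min_le_left _ _)) hsN.le)
    have a2 : Y ≤ κ₂ * √N := hY'.trans (mul_le_mul_of_nonneg_right ((min_le_left _ _).trans (min_le_right _ _)) hsN.le)
    have a3 : Y ≤ l₀ / A * √N := hY'.trans (mul_le_mul_of_nonneg_right (min_le_right _ _) hsN.le)
    have a4 : A * Y ≤ l₀ * √N := by
      calc A * Y ≤ A * (l₀ / A * √N) := mul_le_mul_of_nonneg_left a3 hA0.le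
        _ = l₀ * √N := by field_simp
    have b1 : N ^ (1 / 2 - δ₁) ≤ Y := (Real.rpow_le_rpow_of_exponent_le hN1 (by linarith)).trans h
    have b2 : N ^ (1 / 2 - δ₂) ≤ Y := (Real.rpow_le_rpow_of_exponent_le hN1 (by linarith)).trans h
    have u := (ZPS_sup N A K₀ Y (by linarith) hA).trans (hU' N Y m1 b1 a1)
    have l := (hL' N Y m2 b2 a2).trans (ZPS_slow N A (l₀ * √N) Y hA0.le a4)
    constructor <;> linarith
  · have u := (ZPS_sup' N A Y).trans (hU'' N Y m3 hY h)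
    have a4 : A * Y ≤ N ^ (1 / 2 - δ / 200) := by
      calc A * Y ≤ N ^ (199 / 200 * δ) * N ^ (1 / 2 - δ) :=
            mul_le_mul (hN₆ N m6) h hY0.le (Real.rpow_nonneg hN0.le _)
        _ = N ^ (1 / 2 - δ / 200) := by
            rw [← Real.rpow_add hN0]
            congr 1
            ring
    have l := ZPS_slow N A (N ^ (1 / 2 - δ / 200)) Y hA0.le a4
    rw [Finset.sum_sub_distrib] at l
    have l2 := hL'' N Y m4 hY h
    have l3 := hE N Y m5 hY h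
    have l4 : N ^ (-c) * (Y * √N) ≤ ε / 2 * (Y * √N) := mul_le_mul_of_nonneg_right (hN₇ N m7) (by positivity)
    constructor <;> linarith

end Pool.Agent.T7
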