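import Pool.Agent.helper88.T7.SpecR7

set_option autoImplicit false

/-! Row t7:ZSM (MP_16912e_nt): the crude bound for classes. -/

namespace Pool.Agent.T7

open Finset NumberField Pool.Agent.helper3.FT Pool.Agent.helper47.RA Pool.Agent.T5 Pool.Agent.T6
open scoped nonZeroDivisors

theorem ZSM (h1 : U_stmt) (h2 : SC1_stmt) : ZSM_stmt := by
  intro ε hε
  obtain ⟨C, hC, hU⟩ := h1 ε hε
  refine ⟨2 * C, by linarith, fun N Y hN hY => ?_⟩
  have hN0 : 0 < N := by linarith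
  have hY0 : 0 < Y := by linarith
  have hsN : (0 : ℝ) < √N := Real.sqrt_pos.mpr hN0
  obtain ⟨n, hn1, hn2⟩ := exists_nat_pow_near hY (by norm_num : (1 : ℝ) < 2)
  have hstep : TD7 (fC Y) N ≤ ∑ D ∈ DN N, ∑ j ∈ range (n + 1), (cA D (Y / 2 ^ j) : ℝ) := by
    unfold TD7
    refine Finset.sum_le_sum fun D hD => ?_
    obtain ⟨E, e1, e2, -, e4, e5, -⟩ := ZL_fld N D hD
    rw [e1]
    have h3 := (h2 E.K E.Q E.fin (by rw [e4]; exact e5) Y (n + 1) hY0 hn2).1
    simp only [e2]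
    show ((CLS E.K Y).ncard : ℝ) ≤ _
    exact_mod_cast h3
  refine hstep.trans ?_
  rw [Finset.sum_comm]
  have hX : 0 ≤ C * (N * Y) ^ ε * (Y * √N) := by positivity
  calc ∑ j ∈ range (n + 1), ∑ D ∈ DN N, (cA D (Y / 2 ^ j) : ℝ)
      ≤ ∑ j ∈ range (n + 1), (C * (N * Y) ^ ε * (Y * √N)) * (1 / 2 ^ j) := by
        refine Finset.sum_le_sum fun j hj => ?_
        rw [Finset.mem_range] at hj
        have h2j : (0 : ℝ) < 2 ^ j := by positivity
        have h2j1 : (1 : ℝ) ≤ 2 ^ j := one_le_pow₀ (by norm_num)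
        have hjn : (2 : ℝ) ^ j ≤ 2 ^ n := pow_le_pow_right₀ (by norm_num) (by omega)
        have hyj : 1 ≤ Y / 2 ^ j := by
          rw [le_div_iff₀ h2j]
          linarith
        refine (hU N (Y / 2 ^ j) hN hyj).trans ?_
        have h3 : (N * (Y / 2 ^ j)) ^ ε ≤ (N * Y) ^ ε :=
          Real.rpow_le_rpow (by positivity) (mul_le_mul_of_nonneg_left (div_le_self hY0.le h2j1) hN0.le) hε.le
        calc C * (N * (Y / 2 ^ j)) ^ ε * (Y / 2 ^ j * √N) ≤ C * (N * Y) ^ ε * (Y / 2 ^ j * √N) := by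
              apply mul_le_mul_of_nonneg_right (mul_le_mul_of_nonneg_left h3 (by linarith)) (by positivity)
          _ = (C * (N * Y) ^ ε * (Y * √N)) * (1 / 2 ^ j) := by
              field_simp
    _ = (C * (N * Y) ^ ε * (Y * √N)) * ∑ j ∈ range (n + 1), (1 : ℝ) / 2 ^ j := by rw [Finset.mul_sum]
    _ ≤ (C * (N * Y) ^ ε * (Y * √N)) * 2 := mul_le_mul_of_nonneg_left (ZL_geo (n + 1)) hX
    _ = 2 * C * (N * Y) ^ ε * (Y * √N) := by ring

end Pool.Agent.T7
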