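import Pool.Agent.helper88.T7.SpecR7

set_option autoImplicit false

/-! Row t7:ZSW (MP_16912e_nt): the slices for the classes with `A μ(c²) < μ(c)`. -/

namespace Pool.Agent.T7

open Finset NumberField Pool.Agent.helper3.FT Pool.Agent.helper47.RA Pool.Agent.T5 Pool.Agent.T6
open scoped nonZeroDivisors

theorem ZSW_step (h1 : MU7_stmt) {K : Type} [Field K] [NumberField K] (Q : QF K) (hD : Q.D < 0) (A Y B : ℝ)
    (hA : 1 ≤ A) (hB : Y ≤ B) : (CD7 K A Y).ncard ≤ (EX Q Y B).ncard + (CD7 K A (Y / 2)).ncard := by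
  have hCLS := fun Y c => ZL_CLS h1 Q hD Y c
  obtain ⟨f, hinj, hf⟩ := ZL_map h1 Q hD
  have hfin : (EX Q Y B).Finite := (SFA.1 K Y).subset fun a ha => ha.1
  have hsub : CD7 K A Y ⊆ {c | c ∈ CD7 K A Y ∧ Y / 2 < (mu c : ℝ)} ∪ CD7 K A (Y / 2) := by
    rintro c ⟨hc, hcA⟩
    rcases lt_or_ge (Y / 2) (mu c : ℝ) with h | h
    · exact Or.inl ⟨⟨hc, hcA⟩, h⟩
    · right
      obtain ⟨b1, b2, -⟩ := (hCLS _ _).mp hc
      exact ⟨(hCLS _ _).mpr ⟨b1, b2, h⟩, hcA⟩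
  have h4 : ({c | c ∈ CD7 K A Y ∧ Y / 2 < (mu c : ℝ)} : Set (ClassGroup (𝓞 K))).ncard ≤ (EX Q Y B).ncard := by
    refine Set.ncard_le_ncard_of_injOn f ?_ (hinj.injOn) hfin
    rintro c ⟨⟨hc, hcA⟩, hcY⟩
    obtain ⟨c5, c1, cY⟩ := (hCLS _ _).mp hc
    obtain ⟨f1, f2, f3, f4, f5, f6, -, α, hα, hα0, hαe⟩ := hf c
    refine ⟨ZL_IA f c _ f1 f2 f3 f5 f6 c5 c1 hcY cY, α, hα, hα0, ?_⟩
    rw [hαe, f3]
    apply mul_le_mul_of_nonneg_left _ (by positivity)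
    have h5 : (0 : ℝ) ≤ (mu (c ^ 2) : ℝ) := Nat.cast_nonneg _
    nlinarith
  have h5 := Set.ncard_le_ncard hsub (Set.toFinite _)
  have h6 := Set.ncard_union_le {c | c ∈ CD7 K A Y ∧ Y / 2 < (mu c : ℝ)} (CD7 K A (Y / 2))
  omega

theorem ZSW_iter (h1 : MU7_stmt) {K : Type} [Field K] [NumberField K] (Q : QF K) (hD : Q.D < 0) (A Y B : ℝ)
    (hA : 1 ≤ A) (hB : Y ≤ B) (hY : 0 < Y) (J : ℕ) :
    (CD7 K A Y).ncard ≤ (∑ j ∈ range J, (EX Q (Y / 2 ^ j) B).ncard) + (CD7 K A (Y / 2 ^ J)).ncard := by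
  induction J with
  | zero => simp
  | succ J ih =>
    have h2 : Y / 2 ^ J ≤ B := (div_le_self hY.le (one_le_pow₀ (by norm_num))).trans hB
    have h3 := ZSW_step h1 Q hD A (Y / 2 ^ J) B hA h2
    have e : Y / 2 ^ (J + 1) = Y / 2 ^ J / 2 := by
      rw [pow_succ, div_div]
    rw [Finset.sum_range_succ, e]
    omega

theorem ZSW_sum (h1 : MU7_stmt) (N A Y B : ℝ) (hA : 1 ≤ A) (hB : Y ≤ B) (hY : 0 < Y) (J : ℕ) :
    TD7 (fD A Y) N ≤ (∑ j ∈ range J, ∑ D ∈ DN N, (cE D (Y / 2 ^ j) B : ℝ)) + TD7 (fC (Y / 2 ^ J)) N := by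
  rw [Finset.sum_comm]
  unfold TD7
  rw [← Finset.sum_add_distrib]
  refine Finset.sum_le_sum fun D hD => ?_
  obtain ⟨E, e1, e2, e3, e4, e5, -⟩ := ZL_fld N D hD
  rw [e1, e1]
  simp only [e3]
  have h2 := ZSW_iter h1 E.Q (by rw [e4]; exact e5) A Y B hA hB hY J
  have h3 : (CD7 E.K A (Y / 2 ^ J)).ncard ≤ (CLS E.K (Y / 2 ^ J)).ncard :=
    Set.ncard_le_ncard (fun _ hc => hc.1) (Set.toFinite _)
  have h4 : (CD7 E.K A Y).ncard ≤ (∑ j ∈ range J, (EX E.Q (Y / 2 ^ j) B).ncard) + (CLS E.K (Y / 2 ^ J)).ncard := by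
    omega
  show ((CD7 E.K A Y).ncard : ℝ) ≤ _ + ((CLS E.K (Y / 2 ^ J)).ncard : ℝ)
  exact_mod_cast h4

theorem ZSW_mono (N A B Y : ℝ) (hA : B ≤ A) : TD7 (fD A Y) N ≤ TD7 (fD B Y) N := by
  unfold TD7
  refine Finset.sum_le_sum fun D hD => ?_
  obtain ⟨E, e1, -⟩ := ZL_fld N D hD
  rw [e1, e1]
  show ((CD7 E.K A Y).ncard : ℝ) ≤ ((CD7 E.K B Y).ncard : ℝ)
  have : (CD7 E.K A Y).ncard ≤ (CD7 E.K B Y).ncard := by
    refine Set.ncard_le_ncard ?_ (Set.toFinite _)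
    rintro c ⟨hc, hcA⟩
    refine ⟨hc, lt_of_le_of_lt ?_ hcA⟩
    exact mul_le_mul_of_nonneg_right hA (Nat.cast_nonneg _)
  exact_mod_cast this

theorem ZSW_pow (C ε : ℝ) (hε : 0 < ε) : ∃ b : ℕ, C / 2 ^ b ≤ ε := by
  obtain ⟨b, hb⟩ := pow_unbounded_of_one_lt (C / ε) (by norm_num : (1 : ℝ) < 2)
  refine ⟨b, ?_⟩
  rw [div_lt_iff₀ hε] at hb
  rw [div_le_iff₀ (by positivity)]
  linarith

theorem ZSW (h1 : MU7_stmt) (h2 : ZNB_stmt) (h3 : ∀ δ : ℝ, 0 < δ → δ ≤ 1 / 10 → EXC_stmt δ) (h4 : ZTC_stmt) :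
    ZSW_stmt := by
  intro ε hε
  obtain ⟨δ₀, C₁, hδ₀, hC₁, -, hB⟩ := h2
  obtain ⟨δ, hδ, hδa, hδb⟩ : ∃ δ : ℝ, 0 < δ ∧ δ ≤ δ₀ ∧ δ ≤ 1 / 10 :=
    ⟨min δ₀ (1 / 10), lt_min hδ₀ (by norm_num), min_le_left _ _, min_le_right _ _⟩
  obtain ⟨b, hb⟩ := ZSW_pow C₁ ε hε
  obtain ⟨N₁, hB'⟩ := hB b
  obtain ⟨C, N₂, hC, hT⟩ := h4
  obtain ⟨J, hJ⟩ := ZSW_pow C (ε / 2) (by linarith)
  obtain ⟨c, N₃, hc, hE⟩ := h3 δ hδ hδb
  obtain ⟨N₄, hN₄⟩ := Filter.eventually_atTop.mp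
    ((tendsto_rpow_neg_atTop hc).eventually (eventually_le_nhds (show (0 : ℝ) < ε / 4 by linarith)))
  obtain ⟨N₅, hN₅⟩ := Filter.eventually_atTop.mp
    ((tendsto_rpow_atTop (show (0 : ℝ) < 0.005 by norm_num)).eventually_ge_atTop ((2 : ℝ) ^ J))
  refine ⟨2 ^ b, one_le_pow₀ (by norm_num), fun A hA => ⟨max 1 (max (max N₁ N₂) (max N₃ (max N₄ N₅))), ?_⟩⟩
  have hA1 : 1 ≤ A := (one_le_pow₀ (by norm_num)).trans hA
  intro N Y hN hY hY'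
  simp only [max_le_iff] at hN
  obtain ⟨hN1, ⟨m1, m2⟩, m3, m4, m5⟩ := hN
  have hN0 : 0 < N := by linarith
  have hsN : (0 : ℝ) < √N := Real.sqrt_pos.mpr hN0
  have hY0 : 0 < Y := lt_of_lt_of_le (Real.rpow_pos_of_pos hN0 _) hY
  have hYN : 0 < Y * √N := by positivity
  rcases le_total (N ^ (1 / 2 - δ)) Y with h | h
  · have b1 : N ^ (1 / 2 - δ₀) ≤ Y := (Real.rpow_le_rpow_of_exponent_le hN1 (by linarith)).trans h
    calc TD7 (fD A Y) N ≤ TD7 (fD (2 ^ b) Y) N := ZSW_mono N A (2 ^ b) Y hA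
      _ ≤ C₁ / 2 ^ b * (Y * √N) := (hB' N Y m1 b1 hY').2
      _ ≤ ε * (Y * √N) := mul_le_mul_of_nonneg_right hb hYN.le
  · have hYB : Y ≤ N ^ (1 / 2 - δ / 200) := h.trans (Real.rpow_le_rpow_of_exponent_le hN1 (by linarith))
    have hlow : ∀ j ≤ J, N ^ (0.395 : ℝ) ≤ Y / 2 ^ j := by
      intro j hj
      have h2j : (0 : ℝ) < 2 ^ j := by positivity
      rw [le_div_iff₀ h2j]
      calc N ^ (0.395 : ℝ) * 2 ^ j ≤ N ^ (0.395 : ℝ) * 2 ^ J :=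
            mul_le_mul_of_nonneg_left (pow_le_pow_right₀ (by norm_num) hj) (Real.rpow_nonneg hN0.le _)
        _ ≤ N ^ (0.395 : ℝ) * N ^ (0.005 : ℝ) := mul_le_mul_of_nonneg_left (hN₅ N m5) (Real.rpow_nonneg hN0.le _)
        _ = N ^ (2 / 5 : ℝ) := by
            rw [← Real.rpow_add hN0]
            norm_num
        _ ≤ Y := hY
    have e1 : ∑ j ∈ range J, ∑ D ∈ DN N, (cE D (Y / 2 ^ j) (N ^ (1 / 2 - δ / 200)) : ℝ) ≤ ε / 2 * (Y * √N) := by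
      calc ∑ j ∈ range J, ∑ D ∈ DN N, (cE D (Y / 2 ^ j) (N ^ (1 / 2 - δ / 200)) : ℝ)
          ≤ ∑ j ∈ range J, (ε / 4 * (Y * √N)) * (1 / 2 ^ j) := by
            refine Finset.sum_le_sum fun j hj => ?_
            rw [Finset.mem_range] at hj
            have h2j : (0 : ℝ) < 2 ^ j := by positivity
            have g1 : N ^ (0.39 : ℝ) ≤ Y / 2 ^ j :=
              (Real.rpow_le_rpow_of_exponent_le hN1 (by norm_num)).trans (hlow j hj.le)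
            have g2 : Y / 2 ^ j ≤ N ^ (1 / 2 - δ) := (div_le_self hY0.le (one_le_pow₀ (by norm_num))).trans h
            refine (hE N (Y / 2 ^ j) m3 g1 g2).trans ?_
            calc N ^ (-c) * (Y / 2 ^ j * √N) ≤ ε / 4 * (Y / 2 ^ j * √N) :=
                  mul_le_mul_of_nonneg_right (hN₄ N m4) (by positivity)
              _ = (ε / 4 * (Y * √N)) * (1 / 2 ^ j) := by
                  field_simp
        _ = (ε / 4 * (Y * √N)) * ∑ j ∈ range J, (1 : ℝ) / 2 ^ j := by rw [Finset.mul_sum]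
        _ ≤ (ε / 4 * (Y * √N)) * 2 := mul_le_mul_of_nonneg_left (ZL_geo J) (by positivity)
        _ = ε / 2 * (Y * √N) := by ring
    have e2 : TD7 (fC (Y / 2 ^ J)) N ≤ ε / 2 * (Y * √N) := by
      have g2 : Y / 2 ^ J ≤ √N := (div_le_self hY0.le (one_le_pow₀ (by norm_num))).trans hY'
      refine (hT N (Y / 2 ^ J) m2 (hlow J le_rfl) g2).trans ?_
      calc C * (Y / 2 ^ J * √N) = C / 2 ^ J * (Y * √N) := by ring
        _ ≤ ε / 2 * (Y * √N) := mul_le_mul_of_nonneg_right hJ hYN.le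
    have e3 := ZSW_sum h1 N A Y (N ^ (1 / 2 - δ / 200)) hA1 hYB hY0 J
    linarith

end Pool.Agent.T7
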