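import Pool.Agent.helper88.T7.SpecR7

set_option autoImplicit false

/-! Row t7:ZXX (MP_16912e_nt): the classes with `μ(c)`, `μ(c²)` in given dyadic intervals. -/

namespace Pool.Agent.T7

open Finset NumberField Pool.Agent.helper3.FT Pool.Agent.helper47.RA Pool.Agent.T5 Pool.Agent.T6
open scoped nonZeroDivisors

theorem ZXX_a (h1 : MU7_stmt) {K : Type} [Field K] [NumberField K] (Q : QF K) (hD : Q.D < 0) (M : ℝ) (i j : ℕ) :
    (XX7 K M i j).ncard ≤ (IM Q (M / 2 ^ i) (M / 2 ^ (j + 1))).ncard := by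
  obtain ⟨f, hinj, hf⟩ := ZL_map h1 Q hD
  have hfin : (IM Q (M / 2 ^ i) (M / 2 ^ (j + 1))).Finite := (SFA.1 K (M / 2 ^ i)).subset fun a ha => ha.1
  obtain ⟨-, -, h3, -, -⟩ := h1 K Q hD
  refine Set.ncard_le_ncard_of_injOn f ?_ (hinj.injOn) hfin
  rintro c ⟨c5, c1, a1, a2, a3, a4⟩
  obtain ⟨f1, f2, f3, f4, f5, f6, f7, α, hα, hα0, hαe⟩ := hf c
  have hm : (0 : ℝ) < (mu c : ℝ) := by exact_mod_cast (h3 c).1
  refine ⟨ZL_IA f c _ f1 f2 f3 f5 f6 c5 c1 ?_ a2, ?_, α, hα, hα0, ?_⟩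
  · rw [div_div, ← pow_succ]
    exact a1
  · intro β hβ hβ0
    rw [f3]
    refine lt_of_lt_of_le ?_ (f7 β hβ hβ0)
    exact mul_lt_mul_of_pos_left a3 (by positivity)
  · rw [f3, hαe]
    apply mul_le_mul_of_nonneg_left _ (by positivity)
    have h6 : 2 * (M / 2 ^ (j + 1)) = M / 2 ^ j := by
      rw [pow_succ]
      field_simp
    rw [h6]
    exact a4

theorem ZXX_b (h1 : MU7_stmt) {K : Type} [Field K] [NumberField K] (Q : QF K) (hD : Q.D < 0) (M : ℝ) (i j : ℕ) :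
    (XX7 K M i j).ncard ≤ (XX7 K M j i).ncard := by
  obtain ⟨q1, q2, q3, q4⟩ := ZL_sq (G := ClassGroup (𝓞 K))
  obtain ⟨-, -, h3, -, -⟩ := h1 K Q hD
  refine Set.ncard_le_ncard_of_injOn (fun c => c ^ 2) ?_ ?_ (Set.toFinite _)
  · rintro c ⟨c5, c1, a1, a2, a3, a4⟩
    have e : mu ((c ^ 2) ^ 2) = mu c := by
      rw [q1 c c5]
      exact (h3 c).2.1
    refine ⟨q2 c c5, q3 c c5 c1, a3, a4, ?_, ?_⟩
    · show M / 2 ^ (i + 1) < (mu ((c ^ 2) ^ 2) : ℝ)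
      rw [e]
      exact a1
    · show (mu ((c ^ 2) ^ 2) : ℝ) ≤ M / 2 ^ i
      rw [e]
      exact a2
  · intro c hc c' hc' h
    exact q4 hc.1 hc'.1 h

theorem ZXX_c (h1 : MU7_stmt) (N : ℝ) (i j : ℕ) : TD7 (fX (√N) i j) N ≤
    ∑ D ∈ DN N, SF (fun _ E => ((IM E.Q (√N / 2 ^ i) (√N / 2 ^ (j + 1))).ncard : ℝ)) D := by
  unfold TD7
  refine Finset.sum_le_sum fun D hD => ?_
  obtain ⟨E, e1, -, -, e4, e5, -⟩ := ZL_fld N D hD
  rw [e1, e1]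
  have := ZXX_a h1 E.Q (by rw [e4]; exact e5) (√N) i j
  show ((XX7 E.K (√N) i j).ncard : ℝ) ≤ _
  exact_mod_cast this

theorem ZXX_d (h1 : MU7_stmt) (N : ℝ) (i j : ℕ) : TD7 (fX (√N) i j) N ≤ TD7 (fX (√N) j i) N := by
  unfold TD7
  refine Finset.sum_le_sum fun D hD => ?_
  obtain ⟨E, e1, -, -, e4, e5, -⟩ := ZL_fld N D hD
  rw [e1, e1]
  have := ZXX_b h1 E.Q (by rw [e4]; exact e5) (√N) i j
  show ((XX7 E.K (√N) i j).ncard : ℝ) ≤ ((XX7 E.K (√N) j i).ncard : ℝ)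
  exact_mod_cast this

theorem ZXX (h1 : MU7_stmt) (h2 : MN7_stmt) : ZXX_stmt := by
  obtain ⟨η, C, N₁, hη, hC, hM⟩ := h2
  have key : ∀ N : ℝ, max N₁ 1 ≤ N → ∀ i j : ℕ, j ≤ i → (2 : ℝ) ^ i ≤ N ^ η →
      TD7 (fX (√N) i j) N ≤ C * (N / 2 ^ i) := by
    intro N hN i j hij hi
    have hNN₁ : N₁ ≤ N := le_trans (le_max_left _ _) hN
    have hN1 : 1 ≤ N := le_trans (le_max_right _ _) hN
    have hN0 : 0 < N := by linarith
    have hsN : (0 : ℝ) < √N := Real.sqrt_pos.mpr hN0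
    have hsq : √N * √N = N := Real.mul_self_sqrt hN0.le
    have h2i : (0 : ℝ) < 2 ^ i := by positivity
    have h2j : (0 : ℝ) < 2 ^ j := by positivity
    have hij' : (2 : ℝ) ^ j ≤ 2 ^ i := pow_le_pow_right₀ (by norm_num) hij
    have e2l : 2 * (√N / 2 ^ (j + 1)) = √N / 2 ^ j := by
      rw [pow_succ]
      field_simp
    have c1 : N ^ (1 / 2 - η) ≤ √N / 2 ^ i := by
      calc N ^ (1 / 2 - η) = √N / N ^ η := by rw [Real.rpow_sub hN0, ← Real.sqrt_eq_rpow]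
        _ ≤ √N / 2 ^ i := div_le_div_of_nonneg_left hsN.le h2i hi
    have c2 : √N / 2 ^ i ≤ 2 * (√N / 2 ^ (j + 1)) := by
      rw [e2l]
      exact div_le_div_of_nonneg_left hsN.le h2j hij'
    have c3 : 2 * (√N / 2 ^ (j + 1)) ≤ √N := by
      rw [e2l, div_le_iff₀ h2j]
      have : (1 : ℝ) ≤ 2 ^ j := one_le_pow₀ (by norm_num)
      nlinarith
    refine (ZXX_c h1 N i j).trans ((hM N (√N / 2 ^ i) (√N / 2 ^ (j + 1)) hNN₁ c1 c2 c3).trans (le_of_eq ?_))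
    rw [← mul_div_assoc, hsq]
  refine ⟨η, C, max N₁ 1, hη, hC, fun N hN i j hij => ?_⟩
  rcases le_total j i with h | h
  · rw [max_eq_left h] at hij ⊢
    exact key N hN i j h hij
  · rw [max_eq_right h] at hij ⊢
    exact (ZXX_d h1 N i j).trans (key N hN j i h hij)

end Pool.Agent.T7
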