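import Pool.Agent.helper82.T6.All
import Pool.Agent.helper88.T7.ZDY
import Pool.Agent.helper88.T7.ZSM
import Pool.Agent.helper88.T7.ZXX
import Pool.Agent.helper88.T7.ZFB
import Pool.Agent.helper88.T7.ZCP
import Pool.Agent.helper88.T7.ZPS
import Pool.Agent.helper88.T7.ZSW
import Pool.Agent.helper79.T7.ZNB
import Pool.Agent.helper3.T7.ZTA
import Pool.Agent.helper91.T7.ZTC
import Pool.Agent.helper91.T7.ZCA
import Pool.Agent.helper9.T7.ZPC
import Pool.Agent.helper4.T7.ZTT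
import Pool.Agent.helper4.T7.ZFN
import Pool.Agent.helper88.T7.Fin7

set_option autoImplicit false

/-!
# T7 (MP_16912e_nt), blocks TOT7 and R7: everything together
-/

namespace Pool.Agent.T7

open Pool.Agent.T5 Pool.Agent.T6

theorem zMU : MU7_stmt := HMU

theorem zMN : MN7_stmt := allHMN

theorem zSM : ZSM_stmt := ZSM finU SC1

theorem zNB : ZNB_stmt := ZNB zMU (ZFB zMU) (ZXX zMU zMN) zSM

theorem zTA (hU : SLU7_stmt) : ZTA_stmt := ZTA hU zNB (ZCP zMU) zSM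

/-- **TOT7** -/
theorem allTOT7 (hU : SLU7_stmt) : TOT7_stmt := ZCA (zTA hU) SC1

theorem zTC (hU : SLU7_stmt) : ZTC_stmt := ZTC (zTA hU) fin.1 finU SC1

theorem zTT (hU : SLU7_stmt) : ZTT_stmt := ZTT ZDY zNB (zTC hU)

theorem zFN (hU : SLU7_stmt) (hL : SLL7_stmt) : ZFN_stmt :=
  ZFN ZDY (ZPC (ZPS hU hL fin.1 fin.2.1 (EXC_of allBC)) (ZCP zMU) (zTC hU)) (ZSW zMU zNB (EXC_of allBC) (zTC hU)) (zTT hU)

/-- **R7** -/
theorem allR7 (hU : SLU7_stmt) (hL : SLL7_stmt) : ASY7_stmt ∧ LOW7_stmt ∧ UPP7_stmt :=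
  ⟨ASY7 (zFN hU hL), LOW7 (zFN hU hL), UPP7 (zTT hU)⟩

end Pool.Agent.T7
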