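import Pool.Agent.helper82.T6.All
import Pool.Agent.helper95.T6.AllE1
import Pool.Agent.helper57.T6.ENU
import Pool.Agent.helper85.T6L.LBM
import Pool.Agent.helper46.T6L.AllO
import Pool.Agent.helper77.T6L.EL

/-!
MP_16912e_nt, partial result (`p = 5`, imaginary quadratic fields): A LOWER BOUND OF THE RIGHT ORDER FOR
THE SUM OF `#Cl[5] - 1`.

There are `c > 0` and `N₀` such that for every `N ≥ N₀`

  `∑_{-N < D < 0, D fundamental} (#Cl(ℚ(√D))[5] - 1) ≥ c * N`.

Here `f D` stands for `#Cl(ℚ(√D))[5]`, exactly as in the frozen statement.  The number of the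
fundamental discriminants in the sum is about `3 N / π ^ 2`.

Proof (sketch).  Tuples `(n, k, m, g, Z, Λ)` with

  `m g = Λ n² - Z k²`, `k ∣ m² - Z n²`, `n ∣ g² - Λ k²`, `D (f n k)² = (Z g - Λ m)² - 4 Z² Λ k²`,

`D` fundamental, come from the pairs of ideals `a` in a class `C` with `C ^ 5 = 1` and `L` in `C ^ (-2)`
if `f` is prime to `Z Λ`.  Let `ρ` be small and fixed, `Z ≍ ρ √N`, `Λ ≍ √N`.
(1) Weyl sums modulo `n³ k` (and a band limited minorant) give at least `(c' - C ρ ^ (3 / 2)) ρ N` tuples with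
`-D f² ≍ N` in a fixed residue class, for which `f` is prime to `30`.
(2) The tuples with a prime `p ∣ f`, `p ∣ Z Λ`, `p ≤ ρ ^ (-1.05)`, satisfy `p ∣ m g` and (`p ∣ n k` or `p ∣ Z`);
twisted Weyl sums show that they are a small part.
(3) The tuples with `f` large, or with a prime `> P` dividing `f`, are at most `C P ^ (-0.98) N`, by the bound `O(N)`
for the sum of `#Cl[5]` applied at `N / f²` and by a lifting of fifth powers modulo the conductor `f`.
With `P = ρ ^ (-1.05)` this is less than the main term, as `1.05 * 0.98 > 1`.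
(4) The other tuples have a bounded `f` prime to `Z Λ`, and each nontrivial class is met a bounded number of times.
-/

set_option autoImplicit false

open Classical

namespace Pool.Agent.Results.MP_16912e_nt.ExcessLowerBound

theorem result :
    ∃ c : ℝ, 0 < c ∧ ∃ N₀ : ℕ, ∀ f : ℤ → ℕ,
      (∀ (K : Type) [Field K] [NumberField K], Module.finrank ℚ K = 2 →
        f (NumberField.discr K) =
          Nat.card {x : ClassGroup (NumberField.RingOfIntegers K) // x ^ 5 = 1}) →
      ∀ N : ℕ, N₀ ≤ N →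
        c * N ≤ ∑ D ∈ (Finset.Ioo (-(N : ℤ)) (0 : ℤ)).filter (fun D : ℤ =>
              (D % 4 = 1 ∧ D ≠ 1 ∧ Squarefree D) ∨
              (∃ m : ℤ, D = 4 * m ∧ (m % 4 = 2 ∨ m % 4 = 3) ∧ Squarefree m)),
            ((f D : ℝ) - 1) :=
  Pool.Agent.T6L.EL_of (Pool.Agent.T6L.LB_ex
    (Pool.Agent.T6L.LBM_of (Pool.Agent.T6.allGDT1 Pool.Agent.T6.ENU) Pool.Agent.T6.allEBX Pool.Agent.T6.allEDI)
    (Pool.Agent.T6L.OGL_of Pool.Agent.T6.allUB) Pool.Agent.T6L.GD_all)

end Pool.Agent.Results.MP_16912e_nt.ExcessLowerBound
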