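import Pool.Agent.helper88.T7.AllZ
import Pool.Agent.helper85.T7.AllS
import Pool.Agent.helper46.T7.AllC
import Pool.Agent.helper8.T7.AllSM
import Pool.Agent.helper76.T7.CHX

set_option autoImplicit false

/-!
# T7 (MP_16912e_nt): everything together
-/

namespace Pool.Agent.T7

open Pool.Agent.T5 Pool.Agent.T6

theorem finTOT7 : TOT7_stmt := allTOT7 allSLU7

theorem finCND7 : CND7_stmt := CND7_of (SM_of finTOT7 CHX)

theorem finSLL7 : SLL7_stmt := SLL7_of finCND7 finTOT7

/-- **T7**: the Cohen-Lenstra constant for a positive proportion of all classes of order 5 -/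
theorem final7 : ASY7_stmt ∧ LOW7_stmt ∧ UPP7_stmt := allR7 allSLU7 finSLL7

end Pool.Agent.T7
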