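import Pool.Agent.helper88.T7.Fin7
import Pool.Agent.helper3.T6.DefsH

set_option autoImplicit false

/-!
# T7 (MP_16912e_nt): the classes of the asymptotic are a positive proportion of all classes of order 5
-/

namespace Pool.Agent.T7

open Finset NumberField Pool.Agent.helper3.FT Pool.Agent.helper47.RA Pool.Agent.T5 Pool.Agent.T6
open scoped nonZeroDivisors

open Classical in
/-- the asymptotic with the condition on `c²`; at `Y = κ √N` these are a positive proportion of all classes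
of order 5 -/
def APR7_stmt : Prop := ∀ ε : ℝ, 0 < ε → ∃ A₀ : ℝ, 1 ≤ A₀ ∧ ∀ A : ℝ, A₀ ≤ A → ∃ κ r N₀ : ℝ, 0 < κ ∧ 0 < r ∧
  ∀ g : ℤ → ℝ → ℕ,
  (∀ (K : Type) [Field K] [NumberField K], Module.finrank ℚ K = 2 → ∀ Y : ℝ, g (NumberField.discr K) Y = (SP7 K A Y).ncard) →
  (∀ N Y : ℝ, N₀ ≤ N → N ^ (2 / 5 : ℝ) ≤ Y → Y ≤ κ * √N →
    |∑ D ∈ (Icc (-⌊N⌋) (-1)).filter IsFund, (g D Y : ℝ) - 36 / Real.pi ^ 3 * (Y * √N)| ≤ ε * (Y * √N)) ∧
  ∀ f : ℤ → ℕ, (∀ (K : Type) [Field K] [NumberField K], Module.finrank ℚ K = 2 →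
      f (NumberField.discr K) = Nat.card {x : ClassGroup (𝓞 K) // x ^ 5 = 1}) →
    ∀ N : ℝ, N₀ ≤ N → r * ∑ D ∈ (Icc (-⌊N⌋) (-1)).filter IsFund, ((f D : ℝ) - 1) ≤
      ∑ D ∈ (Icc (-⌊N⌋) (-1)).filter IsFund, (g D (κ * √N) : ℝ)

open Classical in
/-- the excess is of the order `N` -/
def EXC7_stmt : Prop := ∃ c N₀ : ℝ, 0 < c ∧ ∀ f : ℤ → ℕ,
  (∀ (K : Type) [Field K] [NumberField K], Module.finrank ℚ K = 2 →
      f (NumberField.discr K) = Nat.card {x : ClassGroup (𝓞 K) // x ^ 5 = 1}) →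
    ∀ N : ℝ, N₀ ≤ N → c * N ≤ ∑ D ∈ (Icc (-⌊N⌋) (-1)).filter IsFund, ((f D : ℝ) - 1)

theorem APR7_pi : (11 / 10 : ℝ) < 36 / Real.pi ^ 3 := by
  have h1 := Real.pi_lt_d4
  have h0 := Real.pi_pos
  have h2 : Real.pi ^ 3 < 3.1416 ^ 3 := pow_lt_pow_left₀ h1 h0.le (by norm_num)
  rw [lt_div_iff₀ (by positivity)]
  calc (11 / 10 : ℝ) * Real.pi ^ 3 < 11 / 10 * 3.1416 ^ 3 := by linarith
    _ ≤ 36 := by norm_num

/-- `N ^ (2 / 5) ≤ κ √N` for large `N` -/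
theorem APR7_large (κ : ℝ) (hκ : 0 < κ) : ∃ N₁ : ℝ, 1 ≤ N₁ ∧ ∀ N : ℝ, N₁ ≤ N → N ^ (2 / 5 : ℝ) ≤ κ * √N := by
  refine ⟨max 1 ((1 / κ) ^ (10 : ℝ)), le_max_left _ _, fun N hN => ?_⟩
  have hN1 : 1 ≤ N := (le_max_left _ _).trans hN
  have hN0 : 0 < N := by linarith
  have h1 : (1 / κ) ^ (10 : ℝ) ≤ N := (le_max_right _ _).trans hN
  have h2 : 1 / κ ≤ N ^ (1 / 10 : ℝ) := by
    have h3 := Real.rpow_le_rpow (by positivity) h1 (by norm_num : (0 : ℝ) ≤ 1 / 10)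
    rw [← Real.rpow_mul (by positivity)] at h3
    norm_num at h3
    simpa using h3
  rw [Real.sqrt_eq_rpow]
  have h4 : N ^ (1 / 2 : ℝ) = N ^ (1 / 10 : ℝ) * N ^ (2 / 5 : ℝ) := by
    rw [← Real.rpow_add hN0]
    norm_num
  have h5 : 0 ≤ N ^ (2 / 5 : ℝ) := Real.rpow_nonneg hN0.le _
  have h6 : 1 ≤ κ * N ^ (1 / 10 : ℝ) := by
    rw [div_le_iff₀ hκ] at h2
    linarith
  calc N ^ (2 / 5 : ℝ) = 1 * N ^ (2 / 5 : ℝ) := (one_mul _).symm
    _ ≤ κ * N ^ (1 / 10 : ℝ) * N ^ (2 / 5 : ℝ) := mul_le_mul_of_nonneg_right h6 h5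
    _ = κ * N ^ (1 / 2 : ℝ) := by rw [h4]; ring

theorem APR7_of (hU : UB_stmt) (h1 : ASY7_stmt) : APR7_stmt := by
  classical
  obtain ⟨C, hC, hU⟩ := hU
  intro ε hε
  obtain ⟨A₀, hA₀, h2⟩ := h1 (min ε 1) (lt_min hε one_pos)
  refine ⟨A₀, hA₀, fun A hA => ?_⟩
  obtain ⟨κ, N₀, hκ, h3⟩ := h2 A hA
  obtain ⟨N₁, hN₁, h4⟩ := APR7_large κ hκ
  refine ⟨κ, κ / (20 * (C + 1)), max N₀ N₁, hκ, by positivity, fun g hg => ⟨fun N Y hN hY hY' => ?_, fun f hf N hN => ?_⟩⟩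
  · have hN' : N₁ ≤ N := (le_max_right _ _).trans hN
    have hN1 : (1 : ℝ) ≤ N := hN₁.trans hN'
    have hY0 : 0 ≤ Y := (Real.rpow_nonneg (by linarith) _).trans hY
    exact (h3 g hg N Y ((le_max_left _ _).trans hN) hY hY').trans
      (mul_le_mul_of_nonneg_right (min_le_left _ _) (mul_nonneg hY0 (Real.sqrt_nonneg _)))
  · have hN' : N₁ ≤ N := (le_max_right _ _).trans hN
    have hN1 : (1 : ℝ) ≤ N := hN₁.trans hN'
    have e1 := (abs_le.mp (h3 g hg N (κ * √N) ((le_max_left _ _).trans hN) (h4 N hN') le_rfl)).1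
    have e2 : κ * √N * √N = κ * N := by rw [mul_assoc, Real.mul_self_sqrt (by linarith)]
    rw [e2] at e1
    have e3 : min ε 1 * (κ * N) ≤ 1 * (κ * N) := mul_le_mul_of_nonneg_right (min_le_right _ _) (by positivity)
    have hpi := APR7_pi
    have e4 : 11 / 10 * (κ * N) ≤ 36 / Real.pi ^ 3 * (κ * N) := mul_le_mul_of_nonneg_right hpi.le (by positivity)
    have e5 : κ * N / 10 ≤ ∑ D ∈ (Icc (-⌊N⌋) (-1)).filter IsFund, (g D (κ * √N) : ℝ) := by linarith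
    have e6 : ∑ D ∈ (Icc (-⌊N⌋) (-1)).filter IsFund, (f D : ℝ) ≤ C * ((⌊N⌋₊ + 1 : ℕ) : ℝ) := by
      refine hU f hf _ _ fun D hD => ?_
      rw [Finset.mem_filter, Finset.mem_Icc] at hD
      have h5 : (⌊N⌋₊ : ℤ) = ⌊N⌋ := Int.natCast_floor_eq_floor (by linarith)
      refine ⟨hD.2, by omega, ?_⟩
      rw [abs_of_neg (by omega)]
      push_cast
      omega
    have e7 : ((⌊N⌋₊ + 1 : ℕ) : ℝ) ≤ 2 * N := by
      have := Nat.floor_le (by linarith : (0 : ℝ) ≤ N)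
      push_cast
      linarith
    have e8 : ∑ D ∈ (Icc (-⌊N⌋) (-1)).filter IsFund, ((f D : ℝ) - 1) ≤ C * (2 * N) :=
      (Finset.sum_le_sum fun D _ => by linarith).trans (e6.trans (mul_le_mul_of_nonneg_left e7 hC))
    refine le_trans (mul_le_mul_of_nonneg_left e8 (by positivity)) (le_trans ?_ e5)
    have e9 : κ / (20 * (C + 1)) * (C * (2 * N)) = κ * N / 10 * (C / (C + 1)) := by
      field_simp
      ring
    rw [e9]
    have e10 : C / (C + 1) ≤ 1 := (div_le_one (by linarith)).mpr (by linarith)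
    have e11 : 0 ≤ κ * N / 10 := by positivity
    nlinarith

open Classical in
/-- the number of the classes of order 5 is `#Cl[5] - 1` -/
theorem EXC7_card {K : Type} [Field K] [NumberField K] (Y : ℝ) :
    ((CLS K Y).ncard : ℝ) ≤ (Nat.card {x : ClassGroup (𝓞 K) // x ^ 5 = 1} : ℝ) - 1 := by
  classical
  have h1 : CLS K Y ⊆ {x : ClassGroup (𝓞 K) | x ^ 5 = 1} \ {1} := fun c hc => ⟨hc.1, hc.2.1⟩
  have h2 : (CLS K Y).ncard ≤ ({x : ClassGroup (𝓞 K) | x ^ 5 = 1} \ {1}).ncard :=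
    Set.ncard_le_ncard h1 (Set.toFinite _)
  have h3 : ({x : ClassGroup (𝓞 K) | x ^ 5 = 1} \ {1}).ncard + 1 = {x : ClassGroup (𝓞 K) | x ^ 5 = 1}.ncard :=
    Set.ncard_sdiff_singleton_add_one (by simp) (Set.toFinite _)
  have h4 : {x : ClassGroup (𝓞 K) | x ^ 5 = 1}.ncard = Nat.card {x : ClassGroup (𝓞 K) // x ^ 5 = 1} := rfl
  have h5 : (CLS K Y).ncard + 1 ≤ Nat.card {x : ClassGroup (𝓞 K) // x ^ 5 = 1} := by omega
  have h6 : ((CLS K Y).ncard : ℝ) + 1 ≤ (Nat.card {x : ClassGroup (𝓞 K) // x ^ 5 = 1} : ℝ) := by exact_mod_cast h5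
  linarith

theorem EXC7_of (h1 : ZFN_stmt) : EXC7_stmt := by
  classical
  obtain ⟨A₀, hA₀, h2⟩ := h1 1 one_pos
  obtain ⟨κ, N₀, hκ, h3⟩ := h2 A₀ le_rfl
  obtain ⟨N₁, hN₁, h4⟩ := APR7_large κ hκ
  refine ⟨κ / 10, max N₀ N₁, by positivity, fun f hf N hN => ?_⟩
  have hN' : N₁ ≤ N := (le_max_right _ _).trans hN
  have hN1 : (1 : ℝ) ≤ N := hN₁.trans hN'
  have e1 := (abs_le.mp (h3 N (κ * √N) ((le_max_left _ _).trans hN) (h4 N hN') le_rfl)).1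
  have e2 : κ * √N * √N = κ * N := by rw [mul_assoc, Real.mul_self_sqrt (by linarith)]
  rw [e2] at e1
  have hpi := APR7_pi
  have e4 : 1 / 10 * (κ * N) ≤ (36 / Real.pi ^ 3 - 1) * (κ * N) := mul_le_mul_of_nonneg_right (by linarith) (by positivity)
  have e5 : TT7 (fS A₀ (κ * √N)) N ≤ ∑ D ∈ (Icc (-⌊N⌋) (-1)).filter IsFund, ((f D : ℝ) - 1) := by
    unfold TT7
    refine Finset.sum_le_sum fun D hD => ?_
    rw [Finset.mem_filter, Finset.mem_Icc] at hD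
    have hD0 : D < 0 := by omega
    have hne : Nonempty (Fld D) := SFA.2.2 D hD.2 hD0
    have f2 := hf hne.some.K hne.some.fin
    rw [hne.some.dK] at f2
    rw [f2, SF, dif_pos hne]
    have h5 : (SP7 hne.some.K A₀ (κ * √N)).ncard ≤ (CLS hne.some.K (κ * √N)).ncard :=
      Set.ncard_le_ncard (fun c hc => hc.1) (Set.toFinite _)
    have h6 : ((SP7 hne.some.K A₀ (κ * √N)).ncard : ℝ) ≤ ((CLS hne.some.K (κ * √N)).ncard : ℝ) := by exact_mod_cast h5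
    exact h6.trans (EXC7_card _)
  linarith

end Pool.Agent.T7
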