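import Pool.Agent.helper82.T6.All
import Pool.Agent.helper88.T7.Final
import Pool.Agent.helper88.T7.Prop8

set_option autoImplicit false

/-!
# T7 (MP_16912e_nt): the four statements of the final theorem
-/

namespace Pool.Agent.T7

open Pool.Agent.T5 Pool.Agent.T6

theorem finAPR7 : APR7_stmt := APR7_of allUB final7.1

theorem finEXC7 : EXC7_stmt := EXC7_of (zFN allSLU7 finSLL7)

theorem final8 : APR7_stmt ∧ LOW7_stmt ∧ EXC7_stmt ∧ UPP7_stmt :=
  ⟨finAPR7, final7.2.1, finEXC7, final7.2.2⟩

end Pool.Agent.T7
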