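import Pool.Agent.helper3.T6.DefsH
import Pool.Agent.helper5.T5.SFA
import Pool.Agent.helper23.T5.SC1

set_option autoImplicit false

/-!
# T7 (MP_16912e_nt), blocks TOT7 and R7: from the slices to the final statement

RULES. Row `t7:ZXX` is a file `Pool/Agent/<seat>/T7/ZXX.lean`: `import Pool.Agent.helper88.T7.SpecR7`, `set_option autoImplicit false`, `namespace Pool.Agent.T7`,
`open Finset NumberField Pool.Agent.helper3.FT Pool.Agent.helper47.RA Pool.Agent.T5 Pool.Agent.T6`, `open scoped nonZeroDivisors`, and `theorem ZXX (h1 : ..) .. : ZXX_stmt`, whose EXACT line is in the lock note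
(other statements only as hypotheses; an unused hypothesis may stay). Auxiliary lemmas are prefixed `ZXX_`. No `convert`, `congr!`, `native_decide`, no double quotes.

AVAILABLE (in this file or imported, proven, cite freely). `ZL_fld` (the chosen field of a `D ∈ DN N` and all the counting functions at it), `ZL_map` (the map from the classes to their minimal ideals, with all its properties: USE IT in ZXX, ZCP, ZSW), `ZL_CLS` (`c ∈ CLS K Y ↔ c⁵ = 1 ∧ c ≠ 1 ∧ μ(c) ≤ Y`),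
`ZL_sq` (the map `c ↦ c²` on the classes of order 5), `ZL_dyad` (a natural number `m`, `1 ≤ m ≤ M`, lies in one dyadic interval), `ZL_geo` (`∑ j ∈ range J, 1 / 2 ^ j ≤ 2`), `Pool.Agent.T5.SFA : SFA_stmt` (`SFA.1 K Y : (IA K Y).Finite`), `Pool.Agent.T5.SC1 : SC1_stmt`, `Pool.Agent.T5.SC1_inj` (two primitive ideals of norm `≤ Y`, `4 Y² < -D`,
in one class are equal), `SC1_cl`, `SC1_cl_eq`, `SC1_cl_one`, `SC1_cl_pow`, `sum_geometric_two_le` (Mathlib). The rows ZTA and ZPS import also `Pool.Agent.helper85.T7.Defs` (`SLU7_stmt`, `SLL7_stmt`).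
In `Pool/Agent/helper42/T6/HSUM.lean`, `Pool/Agent/helper40/T6/HFIN.lean`, `Pool/Agent/helper67/T6/HCL.lean`, `Pool/Agent/helper56/T5/SC3.lean` you find the same kind of arguments done in Lean (do not import them).

NOTATION in the proofs. `μ = mu` (minimal norm in a class; `MU7_stmt` below has five parts (1)-(5); it is `HMU_stmt` of T6, proven). For `D ∈ DN N`: `D < 0`, `N / 2 < -D ≤ N`, the chosen field `E = h.some` of `SF` (exists by `SFA`) has `E.Q.D = D`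
(`E.hD`), `E.fin : finrank = 2`, and `cA D Y = (IA E.K Y).ncard`, `cE D Y B = (EX E.Q Y B).ncard` for the SAME `E`. Class groups are finite (`Set.toFinite _`). `0 < c0 < 1`. `√N = N ^ (1 / 2)` (`Real.sqrt_eq_rpow`). We may always enlarge `N₀` so that `N ≥ 1` and fixed inequalities between powers of `N` hold.
-/

namespace Pool.Agent.T7

open Finset NumberField Pool.Agent.helper3.FT Pool.Agent.helper47.RA Pool.Agent.T5 Pool.Agent.T6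
open scoped nonZeroDivisors

/-! ## Definitions -/

section
variable (K : Type) [Field K] [NumberField K]

/-- the classes of order 5 -/
def ORD7 : Set (ClassGroup (𝓞 K)) := {c | c ^ 5 = 1 ∧ c ≠ 1}

/-- the classes of order 5 with `μ(c)`, `μ(c²)` in given dyadic intervals -/
def XX7 (M : ℝ) (i j : ℕ) : Set (ClassGroup (𝓞 K)) :=
  {c | c ^ 5 = 1 ∧ c ≠ 1 ∧ M / 2 ^ (i + 1) < (mu c : ℝ) ∧ (mu c : ℝ) ≤ M / 2 ^ i ∧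
    M / 2 ^ (j + 1) < (mu (c ^ 2) : ℝ) ∧ (mu (c ^ 2) : ℝ) ≤ M / 2 ^ j}

/-- `μ(c) ≤ Y`, `μ(c²) ≤ B μ(c)` -/
def NR7 (B Y : ℝ) : Set (ClassGroup (𝓞 K)) := {c | c ∈ CLS K Y ∧ (mu (c ^ 2) : ℝ) ≤ B * (mu c : ℝ)}

/-- `μ(c) ≤ Y`, `A μ(c) < μ(c²)` -/
def CU7 (A Y : ℝ) : Set (ClassGroup (𝓞 K)) := {c | c ∈ CLS K Y ∧ A * (mu c : ℝ) < (mu (c ^ 2) : ℝ)}

/-- `μ(c) ≤ Y`, `A μ(c²) < μ(c)` -/
def CD7 (A Y : ℝ) : Set (ClassGroup (𝓞 K)) := {c | c ∈ CLS K Y ∧ A * (mu (c ^ 2) : ℝ) < (mu c : ℝ)}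

/-- `μ(c) ≤ Y`, and `μ(c)`, `μ(c²)` differ by a factor more than `A` -/
def SP7 (A Y : ℝ) : Set (ClassGroup (𝓞 K)) :=
  {c | c ∈ CLS K Y ∧ (A * (mu c : ℝ) < (mu (c ^ 2) : ℝ) ∨ A * (mu (c ^ 2) : ℝ) < (mu c : ℝ))}

end

/-- the primitive ideals `a` of order 5 and norm in `(Y / 2, Y]` such that `v₁ α ^ 2 > A (N a)³` for all `α ≠ 0` in `a²` (that is, `A N(a) < μ([a]²)`) -/
def PA7 {K : Type} [Field K] [NumberField K] (Q : QF K) (A Y : ℝ) : Set (Ideal (𝓞 K)) :=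
  {a | a ∈ IA K Y ∧ ∀ α ∈ a ^ 2, α ≠ 0 → A * (Ideal.absNorm a : ℝ) ^ 3 < Q.v₁ α ^ 2}

/-- the sum over the slice `N / 2 < -D ≤ N` -/
noncomputable def TD7 (φ : ∀ D : ℤ, Fld D → ℝ) (N : ℝ) : ℝ := ∑ D ∈ DN N, SF φ D

open Classical in
/-- the sum over all fundamental discriminants `-N ≤ D ≤ -1` -/
noncomputable def TT7 (φ : ∀ D : ℤ, Fld D → ℝ) (N : ℝ) : ℝ := ∑ D ∈ (Icc (-⌊N⌋) (-1)).filter IsFund, SF φ D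

noncomputable def fO : ∀ D : ℤ, Fld D → ℝ := fun _ E => ((ORD7 E.K).ncard : ℝ)
noncomputable def fC (Y : ℝ) : ∀ D : ℤ, Fld D → ℝ := fun _ E => ((CLS E.K Y).ncard : ℝ)
noncomputable def fX (M : ℝ) (i j : ℕ) : ∀ D : ℤ, Fld D → ℝ := fun _ E => ((XX7 E.K M i j).ncard : ℝ)
noncomputable def fN (B Y : ℝ) : ∀ D : ℤ, Fld D → ℝ := fun _ E => ((NR7 E.K B Y).ncard : ℝ)
noncomputable def fU (A Y : ℝ) : ∀ D : ℤ, Fld D → ℝ := fun _ E => ((CU7 E.K A Y).ncard : ℝ)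
noncomputable def fD (A Y : ℝ) : ∀ D : ℤ, Fld D → ℝ := fun _ E => ((CD7 E.K A Y).ncard : ℝ)
noncomputable def fS (A Y : ℝ) : ∀ D : ℤ, Fld D → ℝ := fun _ E => ((SP7 E.K A Y).ncard : ℝ)
noncomputable def fP (A Y : ℝ) : ∀ D : ℤ, Fld D → ℝ := fun _ E => ((PA7 E.Q A Y).ncard : ℝ)

/-! ## Facts of T6 (proven there), used as hypotheses -/

/-- **MU7** = `HMU_stmt` of T6 (proven). Minimal norms in ideal classes. -/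
def MU7_stmt : Prop := ∀ (K : Type) [Field K] [NumberField K] (Q : QF K), Q.D < 0 →
  (∀ c : ClassGroup (𝓞 K), ∃ I : (Ideal (𝓞 K))⁰, ClassGroup.mk0 I = c ∧ Ideal.absNorm (I : Ideal (𝓞 K)) = mu c) ∧
  (∀ I : (Ideal (𝓞 K))⁰, mu (ClassGroup.mk0 I) ≤ Ideal.absNorm (I : Ideal (𝓞 K))) ∧
  (∀ c : ClassGroup (𝓞 K), 1 ≤ mu c ∧ mu c⁻¹ = mu c ∧ (mu c : ℝ) ≤ √|(Q.D : ℝ)|) ∧
  (∀ I : (Ideal (𝓞 K))⁰, Ideal.absNorm (I : Ideal (𝓞 K)) = mu (ClassGroup.mk0 I) → Prim (I : Ideal (𝓞 K))) ∧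
  (∀ I : (Ideal (𝓞 K))⁰, (∀ α ∈ (I : Ideal (𝓞 K)) ^ 2, α ≠ 0 →
      (Ideal.absNorm (I : Ideal (𝓞 K)) : ℝ) ^ 2 * (mu (ClassGroup.mk0 I ^ 2) : ℝ) ≤ Q.v₁ α ^ 2) ∧
    ∃ α ∈ (I : Ideal (𝓞 K)) ^ 2, α ≠ 0 ∧
      Q.v₁ α ^ 2 = (Ideal.absNorm (I : Ideal (𝓞 K)) : ℝ) ^ 2 * (mu (ClassGroup.mk0 I ^ 2) : ℝ))

/-- **MN7** = `HMN_stmt` of T6 (proven). The number of ideals with given sizes. -/
def MN7_stmt : Prop := ∃ η' C N₀ : ℝ, 0 < η' ∧ 1 ≤ C ∧ ∀ N Y l : ℝ, N₀ ≤ N → N ^ (1 / 2 - η') ≤ Y → Y ≤ 2 * l →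
  2 * l ≤ √N → ∑ D ∈ DN N, SF (fun _ E => ((IM E.Q Y l).ncard : ℝ)) D ≤ C * (√N * Y)

/-! ## Lemmas (proven) -/

/-- the chosen field of `D ∈ DN N` -/
theorem ZL_fld (N : ℝ) (D : ℤ) (hD : D ∈ DN N) : ∃ E : Fld D, (∀ φ : (∀ D : ℤ, Fld D → ℝ), SF φ D = φ D E) ∧
    (∀ Y, cA D Y = (IA E.K Y).ncard) ∧ (∀ Y B, cE D Y B = (EX E.Q Y B).ncard) ∧ E.Q.D = D ∧ D < 0 ∧ IsFund D ∧
    N / 2 < -(D : ℝ) ∧ -(D : ℝ) ≤ N := by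
  classical
  rw [DN, Finset.mem_filter, Finset.mem_Icc] at hD
  obtain ⟨⟨hD1, hD2⟩, hF, hD3⟩ := hD
  have hD0 : D < 0 := by omega
  have hne : Nonempty (Fld D) := SFA.2.2 D hF hD0
  refine ⟨hne.some, fun φ => ?_, fun Y => ?_, fun Y B => ?_, hne.some.hD, hD0, hF, hD3, ?_⟩
  · rw [SF, dif_pos hne]
  · rw [cA, dif_pos hne]
  · rw [cE, dif_pos hne]
  · have h1 : ((-D : ℤ) : ℝ) ≤ ((⌊N⌋ : ℤ) : ℝ) := by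
      have : -D ≤ ⌊N⌋ := by omega
      exact_mod_cast this
    have h2 : ((⌊N⌋ : ℤ) : ℝ) ≤ N := Int.floor_le N
    push_cast at h1
    linarith

/-- `c ∈ CLS K Y` in terms of the minimal norm -/
theorem ZL_CLS (hMU : MU7_stmt) {K : Type} [Field K] [NumberField K] (Q : QF K) (hD : Q.D < 0) (Y : ℝ) (c : ClassGroup (𝓞 K)) :
    c ∈ CLS K Y ↔ c ^ 5 = 1 ∧ c ≠ 1 ∧ (mu c : ℝ) ≤ Y := by
  obtain ⟨h1, h2, -⟩ := hMU K Q hD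
  constructor
  · rintro ⟨a1, a2, I, rfl, hI⟩
    refine ⟨a1, a2, le_trans ?_ hI⟩
    exact_mod_cast h2 I
  · rintro ⟨a1, a2, a3⟩
    obtain ⟨I, hI, hN⟩ := h1 c
    refine ⟨a1, a2, I, hI, ?_⟩
    rw [hN]
    exact a3

/-- the map from the classes to their minimal ideals -/
theorem ZL_map (hMU : MU7_stmt) {K : Type} [Field K] [NumberField K] (Q : QF K) (hD : Q.D < 0) :
    ∃ f : ClassGroup (𝓞 K) → Ideal (𝓞 K), Function.Injective f ∧ ∀ c, f c ≠ ⊥ ∧ Prim (f c) ∧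
      Ideal.absNorm (f c) = mu c ∧ SC1_cl (f c) = c ∧ (c ^ 5 = 1 → (f c ^ 5).IsPrincipal) ∧
      (c ≠ 1 → ¬ (f c).IsPrincipal) ∧
      (∀ α ∈ f c ^ 2, α ≠ 0 → (mu c : ℝ) ^ 2 * (mu (c ^ 2) : ℝ) ≤ Q.v₁ α ^ 2) ∧
      ∃ α ∈ f c ^ 2, α ≠ 0 ∧ Q.v₁ α ^ 2 = (mu c : ℝ) ^ 2 * (mu (c ^ 2) : ℝ) := by
  obtain ⟨h1, h2, h3, h4, h5⟩ := hMU K Q hD
  choose g hg1 hg2 using h1
  have hcl : ∀ c, SC1_cl (g c : Ideal (𝓞 K)) = c := by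
    intro c
    rw [← SC1_cl_eq' (g c)]
    exact hg1 c
  refine ⟨fun c => (g c : Ideal (𝓞 K)), ?_, ?_⟩
  · intro c c' h
    have h' : (g c : Ideal (𝓞 K)) = g c' := h
    rw [← hcl c, ← hcl c', h']
  · intro c
    have hne : (g c : Ideal (𝓞 K)) ≠ ⊥ := nonZeroDivisors.coe_ne_zero (g c)
    refine ⟨hne, h4 (g c) (by rw [hg1, hg2]), hg2 c, hcl c, ?_, ?_, ?_, ?_⟩
    · intro h
      rw [← SC1_cl_one _ (pow_ne_zero 5 hne), SC1_cl_pow _ hne, hcl c, h]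
    · intro h h'
      apply h
      rw [← hcl c]
      exact (SC1_cl_one _ hne).mpr h'
    · intro α hα hα0
      have := (h5 (g c)).1 α hα hα0
      rw [hg1, hg2] at this
      exact this
    · obtain ⟨α, hα, hα0, he⟩ := (h5 (g c)).2
      refine ⟨α, hα, hα0, ?_⟩
      rw [hg1, hg2] at he
      exact he

/-- the ideal `f c` of `ZL_map` lies in `IA` -/
theorem ZL_IA {K : Type} [Field K] [NumberField K] (f : ClassGroup (𝓞 K) → Ideal (𝓞 K)) (c : ClassGroup (𝓞 K)) (Y : ℝ)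
    (h1 : f c ≠ ⊥) (h2 : Prim (f c)) (h3 : Ideal.absNorm (f c) = mu c) (h5 : c ^ 5 = 1 → (f c ^ 5).IsPrincipal)
    (h6 : c ≠ 1 → ¬ (f c).IsPrincipal) (hc5 : c ^ 5 = 1) (hc1 : c ≠ 1) (hY : Y / 2 < (mu c : ℝ)) (hY' : (mu c : ℝ) ≤ Y) :
    f c ∈ IA K Y := by
  refine ⟨h1, h2, h5 hc5, h6 hc1, ?_, ?_⟩
  · rw [h3]
    exact hY
  · rw [h3]
    exact hY'

/-- the map `c ↦ c²` on the classes of order 5 -/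
theorem ZL_sq {G : Type} [CommGroup G] : (∀ c : G, c ^ 5 = 1 → (c ^ 2) ^ 2 = c⁻¹) ∧
    (∀ c : G, c ^ 5 = 1 → (c ^ 2) ^ 5 = 1) ∧ (∀ c : G, c ^ 5 = 1 → c ≠ 1 → c ^ 2 ≠ 1) ∧
    Set.InjOn (fun c : G => c ^ 2) {c | c ^ 5 = 1} := by
  have hpow : ∀ c : G, c ^ 5 = 1 → (c ^ 2) ^ 2 = c⁻¹ := by
    intro c hc
    rw [← pow_mul]
    have h1 : c ^ (2 * 2) * c = 1 := by
      rw [← pow_succ]
      exact hc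
    exact eq_inv_of_mul_eq_one_left h1
  refine ⟨hpow, ?_, ?_, ?_⟩
  · intro c hc
    rw [← pow_mul, mul_comm, pow_mul, hc, one_pow]
  · intro c hc hc1 h
    apply hc1
    have h2 := hpow c hc
    rw [h, one_pow] at h2
    exact inv_eq_one.mp h2.symm
  · intro c hc c' hc' h
    have h1 := hpow c hc
    have h2 := hpow c' hc'
    simp only at h
    rw [h, h2] at h1
    exact (inv_injective h1).symm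

/-- dyadic position of a number `m ∈ [1, M]` -/
theorem ZL_dyad (M : ℝ) (m : ℕ) (h1 : 1 ≤ m) (hM : (m : ℝ) ≤ M) :
    ∃ i : ℕ, (m : ℝ) ≤ M / 2 ^ i ∧ M / 2 ^ (i + 1) < (m : ℝ) := by
  have hm : (0 : ℝ) < (m : ℝ) := by exact_mod_cast h1
  have hx : 1 ≤ M / (m : ℝ) := by
    rw [le_div_iff₀ hm]
    linarith
  obtain ⟨i, hi1, hi2⟩ := exists_nat_pow_near hx (by norm_num : (1 : ℝ) < 2)
  refine ⟨i, ?_, ?_⟩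
  · rw [le_div_iff₀ hm] at hi1
    rw [le_div_iff₀ (by positivity)]
    linarith
  · rw [div_lt_iff₀ hm] at hi2
    rw [div_lt_iff₀ (by positivity)]
    linarith

theorem ZL_geo (J : ℕ) : ∑ j ∈ range J, (1 : ℝ) / 2 ^ j ≤ 2 := by
  have h : ∀ J : ℕ, ∑ j ∈ range J, (1 : ℝ) / 2 ^ j = 2 - 2 / 2 ^ J := by
    intro J
    induction J with
    | zero => norm_num
    | succ n ih =>
      rw [Finset.sum_range_succ, ih]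
      have h2 : (0 : ℝ) < 2 ^ n := by positivity
      rw [pow_succ]
      field_simp
      ring
  rw [h J]
  have : (0 : ℝ) < 2 / 2 ^ J := by positivity
  linarith

/-! ## Block TOT7 -/

/-- **ZDY** (short). Dyadic decomposition of the sum over `D`.
PROOF. `D ∈ Icc (-⌊N⌋) (-1)` iff `D ≤ -1` and `-D ≤ N` (`Int.le_floor`). A fundamental `D` of this kind satisfies either `N / 2 < -D` (then `D ∈ DN N`) or `-D ≤ N / 2` (then `D ∈ Icc (-⌊N / 2⌋) (-1)`), not both (`Finset.sum_filter_add_sum_filter_not`). Monotone: `⌊N⌋ ≤ ⌊N'⌋` and `SF φ D ≥ 0`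
(`Finset.sum_le_sum_of_subset_of_nonneg`). Third part: induction on `I`, first part for `N / 2 ^ I`. -/
def ZDY_stmt : Prop := ∀ φ : (∀ D : ℤ, Fld D → ℝ), (∀ D E, 0 ≤ φ D E) →
  (∀ N N' : ℝ, N ≤ N' → TT7 φ N ≤ TT7 φ N') ∧
  (∀ N : ℝ, 0 < N → ∀ I : ℕ, TT7 φ N = ∑ i ∈ range I, TD7 φ (N / 2 ^ i) + TT7 φ (N / 2 ^ I))

/-- **ZSM** (short; from `U_stmt`, `SC1_stmt`). The crude bound for classes.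
PROOF. The `C` of `U_stmt` for `ε`; the constant is `2 C`. `J` with `2 ^ (J - 1) ≤ Y < 2 ^ J` (`exists_nat_pow_near`). `SC1` (first part) for each `D`: `(CLS E.K Y).ncard ≤ ∑_{j < J} (IA E.K (Y / 2 ^ j)).ncard`, and `cA D (Y / 2 ^ j)` uses the same field. `Y / 2 ^ j ≥ 1` for `j < J`, so `U_stmt`:
`∑_D cA D (Y / 2 ^ j) ≤ C (N Y / 2 ^ j) ^ ε (Y / 2 ^ j) √N ≤ C (N Y) ^ ε (Y √N) / 2 ^ j`; `∑ 1 / 2 ^ j ≤ 2`. -/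
def ZSM_stmt : Prop := ∀ ε : ℝ, 0 < ε → ∃ C : ℝ, 1 ≤ C ∧ ∀ N Y : ℝ, 1 ≤ N → 1 ≤ Y →
  TD7 (fC Y) N ≤ C * (N * Y) ^ ε * (Y * √N)

/-- **ZXX** (medium; from `MU7_stmt`, `MN7_stmt`). The classes with `μ(c)`, `μ(c²)` in given dyadic intervals.
PROOF. One field, `Q`, `D < 0`. (a) `#XX7 M i j ≤ #IM Q (M / 2 ^ i) (M / 2 ^ (j + 1))`: for `c ∈ XX7` let `a` be the ideal of MU7 (1): `N(a) = μ(c)`, primitive (MU7 (4)), `a⁵` principal, `a` not principal (`ZL_map`), `M / 2 ^ i / 2 < N(a) ≤ M / 2 ^ i`; MU7 (5): `N(a)² μ(c²) ≤ v₁ α ^ 2` for all `α ≠ 0` in `a²`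
and `μ(c²) > M / 2 ^ (j + 1)`; and some `α` has `v₁ α ^ 2 = N(a)² μ(c²) ≤ N(a)² (2 (M / 2 ^ (j + 1)))`. `c ↦ a` is injective. (b) `#XX7 M i j ≤ #XX7 M j i`: `c ↦ c²` is injective on the classes of order 5 (`c = (c²)³`), `(c²)² = c⁴ = c⁻¹` and `μ(c⁻¹) = μ(c)` (MU7 (3)); see `ZL_sq`.
Sum: `η, C, N₁` from MN7, `N₀ = max (N₁, 1)`, `M = √N`. If `j ≤ i` (`max i j = i`): MN7 with `Y = √N / 2 ^ i`, `l = √N / 2 ^ (j + 1)`: `N ^ (1/2 - η) ≤ √N / 2 ^ i` as `2 ^ i ≤ N ^ η`; `Y ≤ 2 l = √N / 2 ^ j ≤ √N`: `∑_D #IM ≤ C √N √N / 2 ^ i = C N / 2 ^ i`. If `i < j`: (b), then the same with `i, j` exchanged. -/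
def ZXX_stmt : Prop := ∃ η C N₀ : ℝ, 0 < η ∧ 1 ≤ C ∧ ∀ N : ℝ, N₀ ≤ N → ∀ i j : ℕ,
  (2 : ℝ) ^ (max i j) ≤ N ^ η → TD7 (fX (√N) i j) N ≤ C * (N / 2 ^ (max i j))

open Classical in
/-- **ZFB** (short to medium; from `MU7_stmt`). One field: a set of classes of order 5 and the dyadic boxes.
PROOF. Let `c ∈ S`. `1 ≤ μ(c) ≤ √|D| ≤ M`, `1 ≤ μ(c²) ≤ M` (MU7 (3)): `ZL_dyad` gives `i, j` with `c ∈ XX7 K M i j`, so `P i j`. If `i < I` and `j < I`: `c` is in the union of the boxes with `P`. If `i ≥ I`: `μ(c) ≤ M / 2 ^ i ≤ M / 2 ^ I`, so `c ∈ CLS K (M / 2 ^ I)` (MU7 (1)). If `j ≥ I`: `c² ∈ CLS K (M / 2 ^ I)`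
(`(c²)⁵ = 1`, `c² ≠ 1`), and `c ↦ c²` is injective on the classes of order 5. So `S` is contained in the union of the boxes, `CLS K (M / 2 ^ I)` and a set which `c ↦ c²` maps injectively into `CLS K (M / 2 ^ I)`. -/
def ZFB_stmt : Prop := ∀ (K : Type) [Field K] [NumberField K] (Q : QF K), Q.D < 0 → ∀ (M : ℝ) (I : ℕ), √|(Q.D : ℝ)| ≤ M →
  ∀ (S : Set (ClassGroup (𝓞 K))) (P : ℕ → ℕ → Prop), S ⊆ ORD7 K → (∀ c ∈ S, ∀ i j : ℕ, c ∈ XX7 K M i j → P i j) →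
  (S.ncard : ℝ) ≤ (∑ x ∈ (range I ×ˢ range I).filter (fun x : ℕ × ℕ => P x.1 x.2), ((XX7 K M x.1 x.2).ncard : ℝ)) +
    2 * ((CLS K (M / 2 ^ I)).ncard : ℝ)

/-- **ZNB** (medium to long; from `ZFB_stmt`, `ZXX_stmt`, `ZSM_stmt`, `MU7_stmt` (for `c ∈ CLS K Y → μ(c) ≤ Y`, part (2))). The classes with `μ(c²) ≤ 2^b μ(c)`, the classes with `2^b μ(c²) < μ(c)`, and all classes of order 5.
PROOF. `η₀, C₁, N₁` from ZXX; `η = min (η₀, 1/4)` (the bound of ZXX holds for `2 ^ max ≤ N ^ η`), `δ = η / 4`, `C₂` from ZSM with `ε = η / 4`. `N` large, `M = √N`, `I` with `2 ^ I ≤ N ^ η < 2 ^ (I + 1)`. For `D ∈ DN N`: `√|D| ≤ M`. SMALL TERM: `Y' = √N / 2 ^ I`, `1 ≤ Y' ≤ 2 N ^ (1/2 - η)`, `N Y' ≤ 2 N ^ (3/2)`; ZSM: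
`TD7 (fC Y') N ≤ C₂ (2 N ^ (3/2)) ^ (η/4) 2 N ^ (1/2 - η) √N ≤ 4 C₂ N ^ (1 - 5η/8) ≤ N ^ (1 - η/2)` for `N` large (`3η/8 - η = -5η/8`).
(3) `S = ORD7`, `P` = true: ZFB, sum over `D`: `∑_{i, j < I} C₁ N / 2 ^ max (i, j) ≤ C₁ N ∑_m (2 m + 1) / 2 ^ m ≤ 6 C₁ N`, and `2 N ^ (1 - η/2) ≤ N`.
Let `N ^ (1/2 - δ) ≤ Y ≤ √N` and `i₀` with `M / 2 ^ (i₀ + 1) < Y ≤ M / 2 ^ i₀`; `N / 2 ^ i₀ = √N (M / 2 ^ i₀) ≤ 2 Y √N`. If `c ∈ CLS K Y`, `c ∈ XX7 K M i j` then `M / 2 ^ (i + 1) < μ(c) ≤ Y ≤ M / 2 ^ i₀`, so `i₀ ≤ i`.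
(1) `S = NR7 K (2^b) Y`: `M / 2 ^ (j + 1) < μ(c²) ≤ 2^b μ(c) ≤ 2^b M / 2 ^ i` gives `i ≤ j + b`; `P i j := i₀ ≤ i ∧ i ≤ j + b`. `∑_{P} 1 / 2 ^ max (i, j) ≤ ∑_{i ≥ i₀} ((b + 1) / 2 ^ i + ∑_{j > i} 1 / 2 ^ j) ≤ (b + 2) ∑_{i ≥ i₀} 1 / 2 ^ i = 2 (b + 2) / 2 ^ i₀`: the sum over `D` is at most `C₁ N 2 (b + 2) / 2 ^ i₀ ≤ 4 C₁ (b + 2) Y √N`;
small term `2 N ^ (1 - η/2) ≤ N ^ (1 - η/4) ≤ Y √N`. (2) `S = CD7 K (2^b) Y`: `2^b M / 2 ^ (j + 1) < 2^b μ(c²) < μ(c) ≤ M / 2 ^ i` gives `i + b ≤ j`; `P i j := i₀ ≤ i ∧ i + b ≤ j`. `∑_P 1 / 2 ^ max = ∑_{i ≥ i₀} ∑_{j ≥ i + b} 1 / 2 ^ j ≤ 4 / 2 ^ (i₀ + b)`: at most `8 C₁ / 2^b · Y √N`; small term `2 N ^ (1 - η/2) ≤ N ^ (1 - η/4) / 2^b` for `N ≥ N₀(b)`.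
The constant `C = 8 C₁ + 6 C₁ + 2` works for all three (`4 (b + 2) ≤ 8 (b + 1)`). -/
def ZNB_stmt : Prop := ∃ δ C : ℝ, 0 < δ ∧ 1 ≤ C ∧ (∃ N₀ : ℝ, ∀ N : ℝ, N₀ ≤ N → TD7 fO N ≤ C * N) ∧
  ∀ b : ℕ, ∃ N₀ : ℝ, ∀ N Y : ℝ, N₀ ≤ N → N ^ (1 / 2 - δ) ≤ Y → Y ≤ √N →
    TD7 (fN (2 ^ b) Y) N ≤ C * ((b : ℝ) + 1) * (Y * √N) ∧ TD7 (fD (2 ^ b) Y) N ≤ C / 2 ^ b * (Y * √N)

/-- **ZCP** (medium; from `MU7_stmt`). One field: classes with `A μ(c) < μ(c²)` and ideals.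
PROOF. First part. Let `c ∈ CU7 K A Y`; `μ(c) ≤ Y` (MU7 (2)). If `μ(c) ≤ Y / 2`: `c ∈ CU7 K A (Y / 2)` (MU7 (1)). Otherwise let `a` be the ideal of MU7 (1), `N(a) = μ(c) ∈ (Y / 2, Y]`, primitive (MU7 (4)), `a ∈ IA K Y` (`ZL_map`); for `α ≠ 0` in `a²`: `v₁ α ^ 2 ≥ N(a)² μ(c²) > N(a)² A N(a)` (MU7 (5)), so `a ∈ PA7 Q A Y`. `c ↦ a` is injective.
Second part, `≥`: `4 Y² < -D`. For `a ∈ PA7 Q A Y` let `c` be its class; `c⁵ = 1`, `c ≠ 1`, `c ∈ CLS K Y`. Let `b` be the ideal of MU7 (1) for `c`: `N(b) = μ(c) ≤ N(a) ≤ Y`, primitive, the same class: `a = b` (`SC1_inj`, with `SC1_cl_eq'`). So `μ(c) = N(a) > Y / 2`, and MU7 (5) (second clause): some `α ≠ 0` in `a²` has `v₁ α ^ 2 = N(a)² μ(c²)`, so `A N(a)³ < N(a)² μ(c²)`, `A μ(c) < μ(c²)`: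
`c ∈ CU7 K A Y`, not in `CU7 K A (Y / 2)` (there `μ(c) ≤ Y / 2`). `a ↦ c` is injective (`SC1_inj`). `CU7 K A (Y / 2) ⊆ CU7 K A Y`. All sets are finite (`PA7 ⊆ IA`, `SFA`). -/
def ZCP_stmt : Prop := ∀ (K : Type) [Field K] [NumberField K] (Q : QF K), Module.finrank ℚ K = 2 → Q.D < 0 → ∀ A Y : ℝ, 0 < Y →
  (CU7 K A Y).ncard ≤ (PA7 Q A Y).ncard + (CU7 K A (Y / 2)).ncard ∧
  (4 * Y ^ 2 < -(Q.D : ℝ) → (CU7 K A Y).ncard = (PA7 Q A Y).ncard + (CU7 K A (Y / 2)).ncard)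

/-- **ZTA** (medium; from `SLU7_stmt`, `ZNB_stmt`, `ZCP_stmt`, `ZSM_stmt`). All classes of a slice, `Y` near `√N`.
PROOF. `δ₀` from SLU7; `K₀, κ₀, N₁` from SLU7 with `ε = 1`; `δ₁, C₁` from ZNB; `δ = min (δ₀, δ₁, 1/10)`; the row is proved with `δ / 4` in the place of `δ`. `b` with `2^b ≥ 2 K₀`.
CASE `Y ≤ κ₀ √N`. `CLS K Y ⊆ NR7 K (2^b) Y ∪ CU7 K (2^b) Y`. The first by ZNB: `C₁ (b + 1) Y √N`. The second: let `j₁` be minimal with `Y / 2 ^ j₁ < N ^ (1/2 - δ)`. ZCP (first part) `j₁` times: `#CU7 (2^b) Y ≤ ∑_{j < j₁} #PA7 (2^b) (Y / 2 ^ j) + #CLS (Y / 2 ^ j₁)`. `PA7 Q (2^b) Y' ⊆ IA K Y' \ EX Q Y' (K₀ Y')`: for `a` in both sets there is `α ≠ 0` in `a²` with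
`v₁ α ^ 2 ≤ N(a)² K₀ Y' ≤ 2 K₀ N(a)³ ≤ 2^b N(a)³ < v₁ α ^ 2` (`N(a) > Y' / 2`). So (`EX ⊆ IA`, finite) `∑_D #PA7 (2^b) (Y / 2 ^ j) ≤ (c0 + 1) (Y / 2 ^ j) √N` by SLU7 (`N ^ (1/2 - δ) ≤ Y / 2 ^ j ≤ κ₀ √N`), the sum over `j` is at most `2 (c0 + 1) Y √N`.
`Y' = Y / 2 ^ j₁ ≥ N ^ (1/2 - δ) / 2 ≥ 1`: ZSM with `ε = δ / 8`: `≤ C₂ (N · N) ^ (δ/8) N ^ (1/2 - δ) √N = C₂ N ^ (1 - 3δ/4) ≤ N ^ (1 - δ/4) ≤ Y √N` for `N` large.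
CASE `κ₀ √N < Y ≤ √N`: `CLS K Y ⊆ ORD7 K`: ZNB: `C₁ N ≤ (C₁ / κ₀) Y √N`. -/
def ZTA_stmt : Prop := ∃ δ C N₀ : ℝ, 0 < δ ∧ δ ≤ 1 / 10 ∧ 1 ≤ C ∧ ∀ N Y : ℝ, N₀ ≤ N → N ^ (1 / 2 - δ) ≤ Y → Y ≤ √N →
  TD7 (fC Y) N ≤ C * (Y * √N)

/-- **ZTC** (short to medium; from `ZTA_stmt`, the upper slices of T5, `U_stmt`, `SC1_stmt`). All classes of a slice, `N ^ 0.395 ≤ Y ≤ √N`.
PROOF. `δ` from ZTA. `Y ≥ N ^ (1/2 - δ)`: ZTA. Let `N ^ 0.395 ≤ Y < N ^ (1/2 - δ)`; `SLU_stmt δ` with `ε = 1`, `U_stmt` with `ε = 1/1000` (constant `C₂`); `J` with `2 ^ (J - 1) ≤ Y < 2 ^ J`, so `J ≤ 1 + 2 log N ≤ N ^ 0.001` (`N` large). SC1 (first part): `TD7 (fC Y) N ≤ ∑_{j < J} ∑_D cA D (Y / 2 ^ j)`. If `Y / 2 ^ j ≥ N ^ 0.39`: at most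
`(c0 + 1) (Y / 2 ^ j) √N`. Otherwise (`1 ≤ Y / 2 ^ j < N ^ 0.39`): at most `C₂ (N · N) ^ (1/1000) N ^ 0.39 √N`, in all at most `J C₂ N ^ 0.392 √N ≤ C₂ N ^ 0.393 √N ≤ Y √N`. -/
def ZTC_stmt : Prop := ∃ C N₀ : ℝ, 1 ≤ C ∧ ∀ N Y : ℝ, N₀ ≤ N → N ^ (0.395 : ℝ) ≤ Y → Y ≤ √N →
  TD7 (fC Y) N ≤ C * (Y * √N)

/-- **ZCA** (short; from `ZTA_stmt`, `SC1_stmt`). The interface `TOT7_stmt` of `helper85/T7/Defs.lean` (the same text).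
PROOF. `δ, C` from ZTA, `κ₀ = 1/4`. `D ∈ DN N`, field `E`: `4 Y² ≤ N / 4 < N / 2 < -D`. `J ≥ 1` with `Y < 2 ^ J`: SC1 (second part): `(CLS E.K Y).ncard = ∑_{j < J} (IA E.K (Y / 2 ^ j)).ncard ≥ (IA E.K Y).ncard = cA D Y` (the term `j = 0`). Sum over `D`. -/
def ZCA_stmt : Prop := ∃ δ C κ₀ N₀ : ℝ, 0 < δ ∧ 1 ≤ C ∧ 0 < κ₀ ∧ ∀ N Y : ℝ, N₀ ≤ N → N ^ (1 / 2 - δ) ≤ Y → Y ≤ κ₀ * √N →
    ∑ D ∈ DN N, (cA D Y : ℝ) ≤ C * (Y * √N)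

/-! ## Block R7 -/

/-- **ZPS** (medium; from SLU7, SLL7 and the slices and EXC of T5). The slices for `PA7`.
PROOF. `δ = min (δ of SLU7, δ of SLL7, 1/10)`. Given `ε`: `K₀, κ₁, N₁` from SLU7, `l₀, κ₂, N₂` from SLL7; `A₀ = 2 K₀`; for `A ≥ A₀` let `κ = min (κ₁, κ₂, l₀ / A)`.
CASE `N ^ (1/2 - δ) ≤ Y ≤ κ √N`. `PA7 Q A Y ⊆ IA K Y \ EX Q Y (K₀ Y)`: otherwise `v₁ α ^ 2 ≤ N(a)² K₀ Y ≤ 2 K₀ N(a)³ ≤ A N(a)³ < v₁ α ^ 2`. `IA K Y \ EX Q Y (l₀ √N) ⊆ PA7 Q A Y`: `v₁ α ^ 2 > N(a)² l₀ √N ≥ N(a)² A Y ≥ A N(a)³` (`A Y ≤ A κ √N ≤ l₀ √N`). `EX ⊆ IA` and all sets are finite, so `cA D Y - cE D Y (l₀ √N) ≤ #PA7 ≤ cA D Y - cE D Y (K₀ Y)`; sum over `D`.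
CASE `N ^ 0.39 ≤ Y < N ^ (1/2 - δ)`. `#PA7 ≤ cA D Y`: `SLU_stmt δ`. `IA K Y \ EX Q Y (N ^ (1/2 - δ/200)) ⊆ PA7 Q A Y` because `A Y ≤ A N ^ (1/2 - δ) ≤ N ^ (1/2 - δ/200)` for `N` large: `SLL_stmt δ` with `ε / 2` and `EXC_stmt δ` (`N ^ (-c) ≤ ε / 2`). -/
def ZPS_stmt : Prop := ∀ ε : ℝ, 0 < ε → ∃ A₀ : ℝ, 1 ≤ A₀ ∧ ∀ A : ℝ, A₀ ≤ A → ∃ κ N₀ : ℝ, 0 < κ ∧ ∀ N Y : ℝ, N₀ ≤ N →
  N ^ (0.39 : ℝ) ≤ Y → Y ≤ κ * √N → |TD7 (fP A Y) N - c0 * (Y * √N)| ≤ ε * (Y * √N)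

/-- **ZPC** (medium; from `ZPS_stmt`, `ZCP_stmt`, `ZTC_stmt`). The slices for the classes with `A μ(c) < μ(c²)`.
PROOF. Given `ε`: `A₀` from ZPS with `ε / 8`; `A ≥ A₀`: `κ₁, N₁`. `C` from ZTC; `j₀` with `(C + 2) / 2 ^ j₀ ≤ ε / 4`; `κ = min (κ₁, 1/3, 1)`. Let `N ^ (2/5) ≤ Y ≤ κ √N`, `N` large. `4 Y² ≤ 4 N / 9 < N / 2 < -D` for `D ∈ DN N`: ZCP (second part) for `Y, Y / 2, .., Y / 2 ^ (j₀ - 1)`: `#CU7 A Y = ∑_{j < j₀} #PA7 A (Y / 2 ^ j) + #CU7 A (Y / 2 ^ j₀)`.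
Sum over `D`; `Y / 2 ^ j ≥ N ^ (2/5) / 2 ^ j₀ ≥ N ^ 0.395 ≥ N ^ 0.39`: ZPS: `∑_{j < j₀} TD7 (fP A (Y / 2 ^ j)) N` differs from `c0 Y √N ∑_{j < j₀} 2 ^ (-j) = c0 (2 - 2 / 2 ^ j₀) Y √N` by at most `(ε / 4) Y √N`. `0 ≤ TD7 (fU A (Y / 2 ^ j₀)) N ≤ TD7 (fC (Y / 2 ^ j₀)) N ≤ (C / 2 ^ j₀) Y √N` (ZTC). `c0 < 1`. -/
def ZPC_stmt : Prop := ∀ ε : ℝ, 0 < ε → ∃ A₀ : ℝ, 1 ≤ A₀ ∧ ∀ A : ℝ, A₀ ≤ A → ∃ κ N₀ : ℝ, 0 < κ ∧ ∀ N Y : ℝ, N₀ ≤ N →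
  N ^ (2 / 5 : ℝ) ≤ Y → Y ≤ κ * √N → |TD7 (fU A Y) N - 2 * c0 * (Y * √N)| ≤ ε * (Y * √N)

/-- **ZSW** (medium; from `ZNB_stmt`, EXC of T5, `ZTC_stmt`, `MU7_stmt`). The slices for the classes with `A μ(c²) < μ(c)`.
PROOF. `δ, C₁` from ZNB, `δ' = min (δ, 1/10)`. `b` with `C₁ / 2^b ≤ ε`, `A₀ = 2^b`. For `A ≥ A₀`: `CD7 K A Y ⊆ CD7 K (2^b) Y`. CASE `Y ≥ N ^ (1/2 - δ')`: ZNB. CASE `N ^ (2/5) ≤ Y < N ^ (1/2 - δ')`: `C` from ZTC, `j₀` with `C / 2 ^ j₀ ≤ ε / 2`. For `D ∈ DN N`: `#CD7 A Y ≤ ∑_{j < j₀} #EX Q (Y / 2 ^ j) (N ^ (1/2 - δ'/200)) + #CLS (Y / 2 ^ j₀)`: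
let `c ∈ CD7 K A Y`, `μ(c) ≤ Y`. If `μ(c) ≤ Y / 2 ^ j₀`: `c ∈ CLS K (Y / 2 ^ j₀)`. Otherwise `Y / 2 ^ (j + 1) < μ(c) ≤ Y / 2 ^ j` for some `j < j₀`; the ideal `a` of MU7 (1) is in `IA K (Y / 2 ^ j)`, and MU7 (5) gives `α ≠ 0` in `a²` with `v₁ α ^ 2 = N(a)² μ(c²)`, `μ(c²) ≤ A μ(c²) < μ(c) ≤ Y ≤ N ^ (1/2 - δ'/200)`; `c ↦ a` is injective.
`EXC_stmt δ'` at `Y / 2 ^ j ≥ N ^ (2/5) / 2 ^ j₀ ≥ N ^ 0.39`: `∑_D ∑_{j < j₀} ≤ 2 N ^ (-c) Y √N ≤ (ε / 2) Y √N`. ZTC at `Y / 2 ^ j₀ ≥ N ^ 0.395`: `(C / 2 ^ j₀) Y √N ≤ (ε / 2) Y √N`. -/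
def ZSW_stmt : Prop := ∀ ε : ℝ, 0 < ε → ∃ A₀ : ℝ, 1 ≤ A₀ ∧ ∀ A : ℝ, A₀ ≤ A → ∃ N₀ : ℝ, ∀ N Y : ℝ, N₀ ≤ N →
  N ^ (2 / 5 : ℝ) ≤ Y → Y ≤ √N → TD7 (fD A Y) N ≤ ε * (Y * √N)

/-- **ZTT** (medium; from `ZDY_stmt`, `ZNB_stmt`, `ZTC_stmt`). The total number of classes with `μ(c) ≤ Y`.
PROOF. (a) `TT7 fO X ≤ C₁ X` for `X ≥ 1`: `C, N₁ ≥ 1` from ZNB (third clause); `I` minimal with `X / 2 ^ I < N₁`; ZDY: `TT7 fO X = ∑_{i < I} TD7 fO (X / 2 ^ i) + TT7 fO (X / 2 ^ I) ≤ ∑ C X / 2 ^ i + TT7 fO N₁ ≤ 2 C X + C₂`, `C₂ = TT7 fO N₁` a constant.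
(b) `N ^ (2/5) ≤ Y ≤ √N`, `N` large; `I` minimal with `N / 2 ^ I < Y²`. For `i < I`: `N / 2 ^ i ≥ Y² ≥ N ^ (4/5) ≥ N₀` (the one of ZTC), `Y ≤ √(N / 2 ^ i)`, `(N / 2 ^ i) ^ 0.395 ≤ N ^ (2/5) ≤ Y`: ZTC: `TD7 (fC Y) (N / 2 ^ i) ≤ C Y √(N / 2 ^ i) = C (1/√2) ^ i Y √N`, and `∑ (1/√2) ^ i ≤ 4`. `TT7 (fC Y) (N / 2 ^ I) ≤ TT7 fO (N / 2 ^ I) ≤ TT7 fO (Y²) ≤ C₁ Y² ≤ C₁ Y √N`. -/
def ZTT_stmt : Prop := ∃ C N₀ : ℝ, 1 ≤ C ∧ ∀ N Y : ℝ, N₀ ≤ N → N ^ (2 / 5 : ℝ) ≤ Y → Y ≤ √N →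
  TT7 (fC Y) N ≤ C * (Y * √N)

/-- **ZFN** (medium; from `ZDY_stmt`, `ZPC_stmt`, `ZSW_stmt`, `ZTT_stmt`). The final sum.
PROOF. `r = 1/√2`, `2 c0 / (1 - r) = 36 / π³` (`c0 = π/2 (1 - 1/√2) (6/π²)²`). `ε₁ = ε / 20`; `A₀` the maximum of those of ZPC and ZSW for `ε₁`; `A ≥ A₀`: `κ₁, N₁` and `N₂`. `C` from ZTT; `i₀` with `(C + 2) r ^ i₀ ≤ ε / 4`; `κ = min (κ₁, 1) r ^ i₀`. Let `N` be large, `N ^ (2/5) ≤ Y ≤ κ √N`. For `i ≤ i₀`: `√(N / 2 ^ i) = r ^ i √N`, `(N / 2 ^ i) ^ (2/5) ≤ Y ≤ min (κ₁, 1) √(N / 2 ^ i)`.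
`#CU7 ≤ #SP7 ≤ #CU7 + #CD7` for each field. So `|TD7 (fS A Y) (N / 2 ^ i) - 2 c0 r ^ i Y √N| ≤ 2 ε₁ r ^ i Y √N`. ZDY: `TT7 (fS A Y) N = ∑_{i < i₀} TD7 (fS A Y) (N / 2 ^ i) + TT7 (fS A Y) (N / 2 ^ i₀)`; the last term is between `0` and `TT7 (fC Y) (N / 2 ^ i₀) ≤ C r ^ i₀ Y √N` (ZTT).
`2 c0 ∑_{i < i₀} r ^ i = (36 / π³) (1 - r ^ i₀)`, `36 / π³ ≤ 2`, `∑ r ^ i ≤ 4`. Total error at most `(8 ε₁ + (C + 2) r ^ i₀) Y √N ≤ ε Y √N`. -/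
def ZFN_stmt : Prop := ∀ ε : ℝ, 0 < ε → ∃ A₀ : ℝ, 1 ≤ A₀ ∧ ∀ A : ℝ, A₀ ≤ A → ∃ κ N₀ : ℝ, 0 < κ ∧ ∀ N Y : ℝ, N₀ ≤ N →
  N ^ (2 / 5 : ℝ) ≤ Y → Y ≤ κ * √N → |TT7 (fS A Y) N - 36 / Real.pi ^ 3 * (Y * √N)| ≤ ε * (Y * √N)

end Pool.Agent.T7
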